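import Pool.Agent.Helper11.EA3.Defs3
import Pool.Agent.Helper51.EA.OneC

/-!
# Project EA, part 3, block V9, part A: the coefficients at the grid points and the conditions of one step
-/

set_option autoImplicit false

namespace Pool.Agent.Helper51.EA

open Finset Pool.Agent.Helper5.RM Pool.Agent.Helper5.RS

/-- the cofactor sum of the block `b` at the grid point `j` -/
noncomputable def xg (N : ℕ) (y : ℕ → ℕ) (b j p : ℕ) (T : Finset ℕ) : ℂ :=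
  XG N (Sy N (y b)) ((j : ℝ) / (4 * N : ℕ)) p T

/-- the tilted coefficients -/
noncomputable def tr (lam : ℝ) (ω : ℂ) (N : ℕ) (y : ℕ → ℕ) (b j p : ℕ) (T : Finset ℕ) : ℝ := lam * (ω * xg N y b j p T).re

/-- the orthogonal coefficients -/
noncomputable def ti (lam : ℝ) (ω : ℂ) (N : ℕ) (y : ℕ → ℕ) (b j p : ℕ) (T : Finset ℕ) : ℝ := lam * (ω * xg N y b j p T).im

/-- the blocks -/
noncomputable def bl (y : ℕ → ℕ) (b : ℕ) : Finset ℕ := Pb (y b) (y (b + 1))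

lemma mem_bl {y : ℕ → ℕ} {b p : ℕ} : p ∈ bl y b ↔ (y b < p ∧ p ≤ y (b + 1)) ∧ p.Prime := by
  unfold bl Pb; rw [mem_filter, mem_Ioc]

lemma bl_sub {y : ℕ → ℕ} {N K b : ℕ} (hy : Monotone y) (hN : y K ≤ N) (hb : b < K) : bl y b ⊆ PP N := by
  intro p hp
  rw [mem_bl] at hp
  rw [mem_PP]
  exact ⟨hp.2, hp.1.2.trans ((hy (by omega)).trans hN)⟩

lemma bl_disj {y : ℕ → ℕ} (hy : Monotone y) {b b' : ℕ} (h : b ≠ b') : Disjoint (bl y b) (bl y b') := by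
  rw [Finset.disjoint_left]
  intro p hp hp'
  rw [mem_bl] at hp hp'
  rcases Nat.lt_or_gt_of_ne h with h1 | h1
  · have := hy (show b + 1 ≤ b' by omega); omega
  · have := hy (show b' + 1 ≤ b by omega); omega

lemma xg_sdiff {N : ℕ} {y : ℕ → ℕ} (hy : Monotone y) {b b' : ℕ} (h : b ≤ b') (j p : ℕ) (T : Finset ℕ) :
    xg N y b j p (T \ bl y b') = xg N y b j p T := by
  unfold xg XG
  refine Finset.sum_congr rfl fun m hm => ?_
  unfold MG at hm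
  rw [mem_filter] at hm
  have h1 := hm.2.1
  unfold Sy at h1
  rw [mem_filter] at h1
  have hsub : m.primeFactors ⊆ PP (y b) := fun q hq => by
    rw [mem_PP]
    exact ⟨Nat.prime_of_mem_primeFactors hq, h1.2 q hq⟩
  have hset : (T \ bl y b') ∩ PP (y b) = T ∩ PP (y b) := by
    ext q
    simp only [mem_inter, mem_sdiff, mem_bl, mem_PP]
    constructor
    · rintro ⟨⟨h2, -⟩, h3⟩; exact ⟨h2, h3⟩
    · rintro ⟨h2, h3⟩
      refine ⟨⟨h2, fun h4 => ?_⟩, h3⟩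
      have := hy h
      omega
  rw [← rf_inter (T \ bl y b') hsub, ← rf_inter T hsub, hset]

/-! ### The numbers -/

/-- `Re (e^(-iπ/4) w)² = (|w|² )/2 + Re w Im w`, here with the number `(1 - i)/√2` -/
lemma rot_sq (w : ℂ) : (((1 - Complex.I) / (Real.sqrt 2 : ℝ)) * w).re ^ 2 = (w.re ^ 2 + w.im ^ 2) / 2 + w.re * w.im := by
  have h2 : (Real.sqrt 2) ^ 2 = 2 := Real.sq_sqrt (by norm_num)
  have e1 : (((1 - Complex.I) / (Real.sqrt 2 : ℝ)) * w).re = (w.re + w.im) / Real.sqrt 2 := by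
    rw [div_mul_eq_mul_div, Complex.div_ofReal_re]
    congr 1
    simp [Complex.mul_re]
  rw [e1, div_pow, h2]
  ring

lemma rot_norm : ‖(1 - Complex.I) / ((Real.sqrt 2 : ℝ) : ℂ)‖ = 1 := by
  have h1 : ‖(1 - Complex.I : ℂ)‖ = Real.sqrt 2 := by
    rw [Complex.norm_def, Complex.normSq_apply]
    congr 1
    simp
    norm_num
  rw [norm_div, h1, Complex.norm_real, Real.norm_of_nonneg (Real.sqrt_nonneg _), div_self]
  have : 0 < Real.sqrt 2 := Real.sqrt_pos.2 (by norm_num)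
  exact this.ne'

lemma negI_re (w : ℂ) : (-Complex.I * w).re = w.im := by simp

/-- products of real and imaginary parts, summed -/
lemma re_re (Q : Finset ℕ) (X Y : ℕ → ℂ) (ω : ℂ) (hω : ‖ω‖ = 1) (B : ℝ) (h1 : ‖∑ p ∈ Q, X p * Y p‖ ≤ B)
    (h2 : ‖∑ p ∈ Q, X p * (starRingEnd ℂ) (Y p)‖ ≤ B) :
    |∑ p ∈ Q, (ω * X p).re * (ω * Y p).re| ≤ B ∧ |∑ p ∈ Q, (ω * X p).re * (ω * Y p).im| ≤ B ∧
      |∑ p ∈ Q, (ω * X p).im * (ω * Y p).re| ≤ B ∧ |∑ p ∈ Q, (ω * X p).im * (ω * Y p).im| ≤ B := by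
  have hωω : ω * (starRingEnd ℂ) ω = 1 := by
    rw [Complex.mul_conj, Complex.normSq_eq_norm_sq, hω]; norm_num
  set A : ℂ := ω ^ 2 * ∑ p ∈ Q, X p * Y p with hA
  set C : ℂ := ∑ p ∈ Q, X p * (starRingEnd ℂ) (Y p) with hC
  have hA1 : ‖A‖ ≤ B := by rw [hA, norm_mul, norm_pow, hω]; simpa using h1
  have eA : A = ∑ p ∈ Q, (ω * X p) * (ω * Y p) := by
    rw [hA, Finset.mul_sum]; exact Finset.sum_congr rfl fun p _ => by ring
  have eC : C = ∑ p ∈ Q, (ω * X p) * (starRingEnd ℂ) (ω * Y p) := by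
    rw [hC]
    refine Finset.sum_congr rfl fun p _ => ?_
    rw [map_mul]
    calc X p * (starRingEnd ℂ) (Y p) = (ω * (starRingEnd ℂ) ω) * (X p * (starRingEnd ℂ) (Y p)) := by rw [hωω, one_mul]
      _ = _ := by ring
  have a1 := Complex.abs_re_le_norm A
  have a2 := Complex.abs_im_le_norm A
  have c1 := Complex.abs_re_le_norm C
  have c2 := Complex.abs_im_le_norm C
  have f1 : ∑ p ∈ Q, (ω * X p).re * (ω * Y p).re = (A.re + C.re) / 2 := by
    rw [eA, eC, Complex.re_sum, Complex.re_sum, ← Finset.sum_add_distrib, Finset.sum_div]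
    refine Finset.sum_congr rfl fun p _ => ?_
    simp only [Complex.mul_re (ω * X p), Complex.conj_re, Complex.conj_im]
    ring
  have f2 : ∑ p ∈ Q, (ω * X p).im * (ω * Y p).im = (C.re - A.re) / 2 := by
    rw [eA, eC, Complex.re_sum, Complex.re_sum, ← Finset.sum_sub_distrib, Finset.sum_div]
    refine Finset.sum_congr rfl fun p _ => ?_
    simp only [Complex.mul_re (ω * X p), Complex.conj_re, Complex.conj_im]
    ring
  have f3 : ∑ p ∈ Q, (ω * X p).re * (ω * Y p).im = (A.im - C.im) / 2 := by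
    rw [eA, eC, Complex.im_sum, Complex.im_sum, ← Finset.sum_sub_distrib, Finset.sum_div]
    refine Finset.sum_congr rfl fun p _ => ?_
    simp only [Complex.mul_im (ω * X p), Complex.conj_re, Complex.conj_im]
    ring
  have f4 : ∑ p ∈ Q, (ω * X p).im * (ω * Y p).re = (A.im + C.im) / 2 := by
    rw [eA, eC, Complex.im_sum, Complex.im_sum, ← Finset.sum_add_distrib, Finset.sum_div]
    refine Finset.sum_congr rfl fun p _ => ?_
    simp only [Complex.mul_im (ω * X p), Complex.conj_re, Complex.conj_im]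
    ring
  rw [f1, f2, f3, f4]
  have a1' := abs_le.1 (a1.trans hA1)
  have a2' := abs_le.1 (a2.trans hA1)
  have c1' := abs_le.1 (c1.trans h2)
  have c2' := abs_le.1 (c2.trans h2)
  refine ⟨?_, ?_, ?_, ?_⟩ <;> rw [abs_le] <;> constructor <;> linarith [a1'.1, a1'.2, a2'.1, a2'.2, c1'.1, c1'.2, c2'.1, c2'.2]

/-- the conditions for one far point, from `cond_okU` in three directions -/
lemma gd2_point {N : ℕ} (hN : 2 ≤ N) (y : ℕ → ℕ) (b j : ℕ) (T : Finset ℕ) (lam β : ℝ) (ω : ℂ)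
    (hlam0 : 0 < lam) (hlam : lam ^ 2 ≤ 7 * Real.log N / N) (hβ : 0 < β)
    (hs : 14 * (1 + Real.log N) * (N : ℝ) ^ (-(β / 2)) ≤ 1)
    (h1 : ∀ p ∈ bl y b, |(ω * xg N y b j p T).re| ≤ (N : ℝ) ^ (1 / 2 - β))
    (h1' : ∀ p ∈ bl y b, |(ω * xg N y b j p T).im| ≤ (N : ℝ) ^ (1 / 2 - β))
    (h2 : |∑ p ∈ bl y b, (ω * xg N y b j p T).re ^ 2 - vb N y b| ≤ (N : ℝ) ^ (1 - β))
    (h3 : |∑ p ∈ bl y b, (ω * xg N y b j p T).im ^ 2 - vb N y b| ≤ (N : ℝ) ^ (1 - β))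
    (h4 : |∑ p ∈ bl y b, ((((ω * xg N y b j p T).re ^ 2 + (ω * xg N y b j p T).im ^ 2) / 2 +
      (ω * xg N y b j p T).re * (ω * xg N y b j p T).im)) - vb N y b| ≤ (N : ℝ) ^ (1 - β)) :
    (∀ p ∈ bl y b, |tr lam ω N y b j p T| ≤ (N : ℝ) ^ (-(β / 2)) ∧ |ti lam ω N y b j p T| ≤ (N : ℝ) ^ (-(β / 2))) ∧
      |∑ p ∈ bl y b, tr lam ω N y b j p T ^ 2 - lam ^ 2 * vb N y b| ≤ (N : ℝ) ^ (-(β / 2)) ∧
      |∑ p ∈ bl y b, ti lam ω N y b j p T ^ 2 - lam ^ 2 * vb N y b| ≤ (N : ℝ) ^ (-(β / 2)) ∧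
      |∑ p ∈ bl y b, tr lam ω N y b j p T * ti lam ω N y b j p T| ≤ (N : ℝ) ^ (-(β / 2)) := by
  have hN1 : 1 ≤ N := by omega
  have hN0 : (0 : ℝ) < N := by exact_mod_cast (by omega : 0 < N)
  have hN1' : (1 : ℝ) ≤ N := by exact_mod_cast hN1
  have hL : 0 < Real.log N := Real.log_pos (by exact_mod_cast (by omega : 1 < N))
  obtain ⟨L, hLd⟩ : ∃ L, L = Real.log N := ⟨_, rfl⟩
  rw [← hLd] at hlam hs hL
  obtain ⟨τ, hτd⟩ : ∃ τ, τ = (N : ℝ) ^ (-(β / 2)) := ⟨_, rfl⟩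
  have hτ : 0 < τ := by rw [hτd]; positivity
  have hτ1 : τ ≤ 1 := by rw [hτd]; exact Real.rpow_le_one_of_one_le_of_nonpos hN1' (by linarith)
  rw [← hτd] at hs ⊢
  have e1 : ((N : ℝ) ^ (1 / 2 - β)) ^ 2 = N * τ ^ 4 := by
    rw [hτd, ← Real.rpow_natCast, ← Real.rpow_mul hN0.le, ← Real.rpow_natCast, ← Real.rpow_mul hN0.le]
    nth_rewrite 2 [← Real.rpow_one (N : ℝ)]
    rw [← Real.rpow_add hN0]
    congr 1
    push_cast
    ring
  have e2 : (N : ℝ) ^ (1 - β) = N * τ ^ 2 := by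
    rw [hτd, ← Real.rpow_natCast, ← Real.rpow_mul hN0.le]
    nth_rewrite 2 [← Real.rpow_one (N : ℝ)]
    rw [← Real.rpow_add hN0]
    congr 1
    push_cast
    ring
  have hLτ : 7 * L * τ ≤ 1 / 2 := by nlinarith
  -- one coefficient
  have hone : ∀ v : ℝ, |v| ≤ (N : ℝ) ^ (1 / 2 - β) → |lam * v| ≤ τ := by
    intro v hv
    have h5 : (lam * v) ^ 2 ≤ τ ^ 2 := by
      have h6 : v ^ 2 ≤ N * τ ^ 4 := by
        rw [← e1, ← sq_abs]
        exact pow_le_pow_left₀ (abs_nonneg _) hv 2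
      calc (lam * v) ^ 2 = lam ^ 2 * v ^ 2 := by ring
        _ ≤ (7 * L / N) * (N * τ ^ 4) := mul_le_mul hlam h6 (sq_nonneg _) (by positivity)
        _ = (7 * L * τ) * (τ * τ ^ 2) := by field_simp
        _ ≤ (1 / 2) * (1 * τ ^ 2) := by gcongr
        _ ≤ τ ^ 2 := by nlinarith [sq_nonneg τ]
    exact abs_le_of_sq_le_sq h5 hτ.le
  have hsum : ∀ S V c : ℝ, |S - V| ≤ c * (N : ℝ) ^ (1 - β) → 0 ≤ c → c ≤ 2 → |lam ^ 2 * S - lam ^ 2 * V| ≤ τ := by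
    intro S V c h hc0 hc
    rw [← mul_sub, abs_mul, abs_of_nonneg (by positivity : (0 : ℝ) ≤ lam ^ 2)]
    rw [e2] at h
    calc lam ^ 2 * |S - V| ≤ (7 * L / N) * (c * (N * τ ^ 2)) := mul_le_mul hlam h (abs_nonneg _) (by positivity)
      _ = (7 * L * τ) * (c * τ) := by field_simp
      _ ≤ (1 / 2) * (2 * τ) := by gcongr
      _ = τ := by ring
  refine ⟨fun p hp => ⟨hone _ (h1 p hp), hone _ (h1' p hp)⟩, ?_, ?_, ?_⟩
  · have e3 : ∑ p ∈ bl y b, tr lam ω N y b j p T ^ 2 = lam ^ 2 * ∑ p ∈ bl y b, (ω * xg N y b j p T).re ^ 2 := by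
      rw [Finset.mul_sum]; exact Finset.sum_congr rfl fun p _ => by unfold tr; ring
    rw [e3]
    exact hsum _ _ 1 (by rw [one_mul]; exact h2) (by norm_num) (by norm_num)
  · have e3 : ∑ p ∈ bl y b, ti lam ω N y b j p T ^ 2 = lam ^ 2 * ∑ p ∈ bl y b, (ω * xg N y b j p T).im ^ 2 := by
      rw [Finset.mul_sum]; exact Finset.sum_congr rfl fun p _ => by unfold ti; ring
    rw [e3]
    exact hsum _ _ 1 (by rw [one_mul]; exact h3) (by norm_num) (by norm_num)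
  · have e3 : ∑ p ∈ bl y b, tr lam ω N y b j p T * ti lam ω N y b j p T =
        lam ^ 2 * (∑ p ∈ bl y b, (ω * xg N y b j p T).re * (ω * xg N y b j p T).im) - lam ^ 2 * 0 := by
      rw [Finset.mul_sum, mul_zero, sub_zero]; exact Finset.sum_congr rfl fun p _ => by unfold ti tr; ring
    rw [e3]
    refine hsum _ _ 2 ?_ (by norm_num) le_rfl
    rw [sub_zero]
    have h5 : ∑ p ∈ bl y b, ((((ω * xg N y b j p T).re ^ 2 + (ω * xg N y b j p T).im ^ 2) / 2 +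
        (ω * xg N y b j p T).re * (ω * xg N y b j p T).im)) =
        (∑ p ∈ bl y b, (ω * xg N y b j p T).re ^ 2 + ∑ p ∈ bl y b, (ω * xg N y b j p T).im ^ 2) / 2 +
          ∑ p ∈ bl y b, (ω * xg N y b j p T).re * (ω * xg N y b j p T).im := by
      rw [Finset.sum_add_distrib, ← Finset.sum_div, Finset.sum_add_distrib]
    rw [h5] at h4
    have := abs_le.1 h2
    have := abs_le.1 h3
    have := abs_le.1 h4
    rw [abs_le]
    constructor <;> linarith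

/-- the conditions for a pair -/
lemma gd2_pair {N : ℕ} (hN : 2 ≤ N) (y : ℕ → ℕ) (b j i : ℕ) (T : Finset ℕ) (lam β : ℝ) (ω : ℂ) (hω : ‖ω‖ = 1)
    (hlam : lam ^ 2 ≤ 7 * Real.log N / N)
    (hs : 14 * (1 + Real.log N) * (N : ℝ) ^ (-(β / 2)) ≤ 1)
    (h1 : ‖∑ p ∈ bl y b, xg N y b j p T * xg N y b i p T‖ ≤ (N : ℝ) ^ (1 - β))
    (h2 : ‖∑ p ∈ bl y b, xg N y b j p T * (starRingEnd ℂ) (xg N y b i p T)‖ ≤ (N : ℝ) ^ (1 - β)) :
    |∑ p ∈ bl y b, tr lam ω N y b j p T * tr lam ω N y b i p T| ≤ (N : ℝ) ^ (-(β / 2)) ∧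
      |∑ p ∈ bl y b, tr lam ω N y b j p T * ti lam ω N y b i p T| ≤ (N : ℝ) ^ (-(β / 2)) ∧
      |∑ p ∈ bl y b, ti lam ω N y b j p T * tr lam ω N y b i p T| ≤ (N : ℝ) ^ (-(β / 2)) ∧
      |∑ p ∈ bl y b, ti lam ω N y b j p T * ti lam ω N y b i p T| ≤ (N : ℝ) ^ (-(β / 2)) := by
  have hN1 : 1 ≤ N := by omega
  have hN0 : (0 : ℝ) < N := by exact_mod_cast (by omega : 0 < N)
  have hN1' : (1 : ℝ) ≤ N := by exact_mod_cast hN1
  have hL : 0 < Real.log N := Real.log_pos (by exact_mod_cast (by omega : 1 < N))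
  obtain ⟨L, hLd⟩ : ∃ L, L = Real.log N := ⟨_, rfl⟩
  rw [← hLd] at hlam hs hL
  obtain ⟨τ, hτd⟩ : ∃ τ, τ = (N : ℝ) ^ (-(β / 2)) := ⟨_, rfl⟩
  have hτ : 0 < τ := by rw [hτd]; positivity
  rw [← hτd] at hs ⊢
  have e2 : (N : ℝ) ^ (1 - β) = N * τ ^ 2 := by
    rw [hτd, ← Real.rpow_natCast, ← Real.rpow_mul hN0.le]
    nth_rewrite 2 [← Real.rpow_one (N : ℝ)]
    rw [← Real.rpow_add hN0]
    congr 1
    push_cast
    ring
  have hLτ : 7 * L * τ ≤ 1 / 2 := by nlinarith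
  have hsum : ∀ S : ℝ, |S| ≤ (N : ℝ) ^ (1 - β) → |lam ^ 2 * S| ≤ τ := by
    intro S h
    rw [abs_mul, abs_of_nonneg (by positivity : (0 : ℝ) ≤ lam ^ 2)]
    rw [e2] at h
    calc lam ^ 2 * |S| ≤ (7 * L / N) * (N * τ ^ 2) := mul_le_mul hlam h (abs_nonneg _) (by positivity)
      _ = (7 * L * τ) * τ := by field_simp
      _ ≤ (1 / 2) * τ := by gcongr
      _ ≤ τ := by linarith
  obtain ⟨f1, f2, f3, f4⟩ := re_re (bl y b) (fun p => xg N y b j p T) (fun p => xg N y b i p T) ω hω _ h1 h2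
  refine ⟨?_, ?_, ?_, ?_⟩
  · refine le_trans (le_of_eq ?_) (hsum _ f1)
    rw [Finset.mul_sum]; congr 1; exact Finset.sum_congr rfl fun p _ => by unfold tr; ring
  · refine le_trans (le_of_eq ?_) (hsum _ f2)
    rw [Finset.mul_sum]; congr 1; exact Finset.sum_congr rfl fun p _ => by unfold tr ti; ring
  · refine le_trans (le_of_eq ?_) (hsum _ f3)
    rw [Finset.mul_sum]; congr 1; exact Finset.sum_congr rfl fun p _ => by unfold tr ti; ring
  · refine le_trans (le_of_eq ?_) (hsum _ f4)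
    rw [Finset.mul_sum]; congr 1; exact Finset.sum_congr rfl fun p _ => by unfold ti; ring

end Pool.Agent.Helper51.EA
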