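import Pool.Agent.Helper11.EA3.ArcA

/-!
# Project EA, part 3, block V9, part B: location of the value, counting, numerics
-/

set_option autoImplicit false

namespace Pool.Agent.Helper51.EA

open Finset Pool.Agent.Helper5.RM Pool.Agent.Helper5.RS

lemma Mn_tr (lam : ℝ) (ω : ℂ) (N : ℕ) (y : ℕ → ℕ) (K j : ℕ) (T : Finset ℕ) :
    lam * (ω * Mn N y K ((j : ℝ) / (4 * N : ℕ)) T).re = ∑ b ∈ range K, ∑ p ∈ bl y b, sg T p * tr lam ω N y b j p T := by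
  unfold Mn
  rw [Finset.mul_sum, Complex.re_sum, Finset.mul_sum]
  refine Finset.sum_congr rfl fun b _ => ?_
  rw [Finset.mul_sum, Complex.re_sum, Finset.mul_sum]
  refine Finset.sum_congr rfl fun p _ => ?_
  unfold tr xg
  have : ω * ((sg T p : ℂ) * XG N (Sy N (y b)) ((j : ℝ) / (4 * N : ℕ)) p T) =
      (sg T p : ℂ) * (ω * XG N (Sy N (y b)) ((j : ℝ) / (4 * N : ℕ)) p T) := by ring
  rw [this, Complex.re_ofReal_mul]
  ring

lemma Mn_ti (lam : ℝ) (ω : ℂ) (N : ℕ) (y : ℕ → ℕ) (K j : ℕ) (T : Finset ℕ) :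
    lam * (ω * Mn N y K ((j : ℝ) / (4 * N : ℕ)) T).im = ∑ b ∈ range K, ∑ p ∈ bl y b, sg T p * ti lam ω N y b j p T := by
  unfold Mn
  rw [Finset.mul_sum, Complex.im_sum, Finset.mul_sum]
  refine Finset.sum_congr rfl fun b _ => ?_
  rw [Finset.mul_sum, Complex.im_sum, Finset.mul_sum]
  refine Finset.sum_congr rfl fun p _ => ?_
  unfold ti xg
  have : ω * ((sg T p : ℂ) * XG N (Sy N (y b)) ((j : ℝ) / (4 * N : ℕ)) p T) =
      (sg T p : ℂ) * (ω * XG N (Sy N (y b)) ((j : ℝ) / (4 * N : ℕ)) p T) := by ring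
  rw [this, Complex.im_ofReal_mul]
  ring

lemma lm_tg {r : ℝ} {N : ℕ} (hN : 2 ≤ N) : lm (1 - r) N * tg N = 2 * r * Real.log N := by
  have hN0 : (0 : ℝ) < N := by exact_mod_cast (by omega : 0 < N)
  have hpi := Real.pi_pos
  unfold lm
  have h3 := tg_sq (show 1 ≤ N by omega)
  have h4 : (1 - (1 - r)) * tg N * Real.pi ^ 2 / (3 * N) * tg N = r * Real.pi ^ 2 / (3 * N) * tg N ^ 2 := by ring
  rw [h4, h3]
  field_simp
  ring

/-- the location -/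
lemma loc_det {N : ℕ} (hN : 2 ≤ N) (r δ ε σ C : ℝ) (hr0 : 0 < r) (hr1 : r ≤ 1) (hδ : 0 < δ) (ω : ℂ) (y : ℕ → ℕ) (K j : ℕ)
    (T : Finset ℕ)
    (ha : ∀ b < K, |∑ p ∈ bl y b, sg T p * tr (lm (1 - r) N) ω N y b j p T - lm (1 - r) N ^ 2 * vb N y b| ≤ σ * Real.log N)
    (hb : ∀ b < K, |∑ p ∈ bl y b, sg T p * ti (lm (1 - r) N) ω N y b j p T| ≤ σ * Real.log N)
    (hc : (6 / Real.pi ^ 2 - ε) * N ≤ ∑ b ∈ range K, 2 * vb N y b)
    (hd : ∑ b ∈ range K, lm (1 - r) N ^ 2 * vb N y b ≤ 2 * r ^ 2 * Real.log N + C)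
    (hσ : K * σ ≤ δ * r / 8) (hε0 : 0 ≤ ε) (hε : ε ≤ δ / 32) (hC : C ≤ δ * r / 8 * Real.log N) :
    ‖ω * Mn N y K ((j : ℝ) / (4 * N : ℕ)) T - ((r * tg N : ℝ) : ℂ)‖ ≤ δ / 4 * tg N := by
  have hN1 : 1 ≤ N := by omega
  have hN0 : (0 : ℝ) < N := by exact_mod_cast (by omega : 0 < N)
  have hL : 0 < Real.log N := Real.log_pos (by exact_mod_cast (by omega : 1 < N))
  have hlam : 0 < lm (1 - r) N := lm_pos (by linarith) hN
  have htg := tg_pos hN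
  have hpi := Real.pi_pos
  have e0 := lm_tg (r := r) hN
  have esq := lm_sq (1 - r) hN1
  obtain ⟨lam, hlamd⟩ : ∃ lam, lam = lm (1 - r) N := ⟨_, rfl⟩
  rw [← hlamd] at ha hb hd hlam e0 esq
  obtain ⟨L, hLd⟩ : ∃ L, L = Real.log N := ⟨_, rfl⟩
  rw [← hLd] at ha hb hd hC e0 hL esq
  set W : ℂ := ω * Mn N y K ((j : ℝ) / (4 * N : ℕ)) T with hW
  have eR := Mn_tr lam ω N y K j T
  have eI := Mn_ti lam ω N y K j T
  rw [← hW] at eR eI
  -- lower bound of the sum of the levels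
  have hlow : 2 * r ^ 2 * L - 4 * ε * r ^ 2 * L ≤ ∑ b ∈ range K, lam ^ 2 * vb N y b := by
    rw [← Finset.mul_sum] at hc ⊢
    have h1 : lam ^ 2 * ((6 / Real.pi ^ 2 - ε) * N / 2) ≤ lam ^ 2 * ∑ b ∈ range K, vb N y b :=
      mul_le_mul_of_nonneg_left (by linarith) (by positivity)
    refine le_trans ?_ h1
    rw [esq]
    have h2 : (1 - (1 - r)) ^ 2 * (2 * Real.pi ^ 2 / 3) * L / N * ((6 / Real.pi ^ 2 - ε) * N / 2) =
        2 * r ^ 2 * L - (Real.pi ^ 2 / 3) * ε * r ^ 2 * L := by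
      field_simp
      ring
    rw [h2]
    have h3 := pi_sq_lt
    have h4 : (Real.pi ^ 2 / 3) * (ε * r ^ 2 * L) ≤ 4 * (ε * r ^ 2 * L) :=
      mul_le_mul_of_nonneg_right (by linarith) (by positivity)
    linarith
  have hR : |lam * W.re - lam * (r * tg N)| ≤ lam * (δ / 8 * tg N) := by
    have h1 : lam * (r * tg N) = 2 * r ^ 2 * L := by
      calc lam * (r * tg N) = r * (lam * tg N) := by ring
        _ = _ := by rw [e0]; ring
    have h2 : lam * (δ / 8 * tg N) = δ * r / 4 * L := by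
      calc lam * (δ / 8 * tg N) = δ / 8 * (lam * tg N) := by ring
        _ = _ := by rw [e0]; ring
    have h3 : |∑ b ∈ range K, ∑ p ∈ bl y b, sg T p * tr lam ω N y b j p T - ∑ b ∈ range K, lam ^ 2 * vb N y b| ≤ K * σ * L := by
      rw [← Finset.sum_sub_distrib]
      refine (Finset.abs_sum_le_sum_abs _ _).trans ((Finset.sum_le_sum fun b hb' => ha b (mem_range.1 hb')).trans ?_)
      rw [Finset.sum_const, card_range, nsmul_eq_mul]
      linarith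
    have h4 : (K : ℝ) * σ * L ≤ δ * r / 8 * L := mul_le_mul_of_nonneg_right hσ hL.le
    have h5 : 4 * ε * r ^ 2 * L ≤ δ * r / 8 * L := by
      refine mul_le_mul_of_nonneg_right ?_ hL.le
      have h6 : r ^ 2 ≤ r := by nlinarith
      have h7 : 4 * ε * r ^ 2 ≤ 4 * ε * r := mul_le_mul_of_nonneg_left h6 (by positivity)
      have h8 : 4 * ε * r ≤ δ / 8 * r := mul_le_mul_of_nonneg_right (by linarith) hr0.le
      linarith
    rw [h1, h2, eR]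
    have h6 := abs_le.1 h3
    rw [abs_le]
    constructor <;> linarith [h6.1, h6.2]
  have hI : |lam * W.im| ≤ lam * (δ / 16 * tg N) := by
    have h2 : lam * (δ / 16 * tg N) = δ * r / 8 * L := by
      calc lam * (δ / 16 * tg N) = δ / 16 * (lam * tg N) := by ring
        _ = _ := by rw [e0]; ring
    rw [eI, h2]
    refine (Finset.abs_sum_le_sum_abs _ _).trans ((Finset.sum_le_sum fun b hb' => hb b (mem_range.1 hb')).trans ?_)
    rw [Finset.sum_const, card_range, nsmul_eq_mul]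
    have h4 : (K : ℝ) * σ * L ≤ δ * r / 8 * L := mul_le_mul_of_nonneg_right hσ hL.le
    linarith
  have hR' : |W.re - r * tg N| ≤ δ / 8 * tg N := by
    rw [← mul_sub, abs_mul, abs_of_pos hlam] at hR
    exact le_of_mul_le_mul_left hR hlam
  have hI' : |W.im| ≤ δ / 16 * tg N := by
    rw [abs_mul, abs_of_pos hlam] at hI
    exact le_of_mul_le_mul_left hI hlam
  have h9 := Complex.norm_le_abs_re_add_abs_im (W - ((r * tg N : ℝ) : ℂ))
  rw [Complex.sub_re, Complex.sub_im, Complex.ofReal_re, Complex.ofReal_im, sub_zero] at h9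
  refine h9.trans ?_
  have : 0 < δ * tg N := by positivity
  linarith

/-- counting the positive weights -/
lemma count_pos (I : Finset ℕ) (w : ℕ → ℝ) (E c : ℝ) (hE : 0 < E) (hw0 : ∀ j ∈ I, 0 ≤ w j) (hw : ∀ j ∈ I, w j ≤ E)
    (h : c * I.card ≤ ∑ j ∈ I, w j) : c * I.card / E ≤ ((I.filter (fun j => 0 < w j)).card : ℝ) := by
  rw [div_le_iff₀ hE]
  refine h.trans ?_
  have h1 : ∑ j ∈ I, w j = ∑ j ∈ I.filter (fun j => 0 < w j), w j := by
    rw [Finset.sum_filter]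
    refine Finset.sum_congr rfl fun j hj => ?_
    split_ifs with h2
    · rfl
    · exact le_antisymm (not_lt.1 h2) (hw0 j hj)
  rw [h1]
  have h2 : ∑ j ∈ I.filter (fun j => 0 < w j), w j ≤ ∑ _j ∈ I.filter (fun j => 0 < w j), E :=
    Finset.sum_le_sum fun j hj => hw j (mem_filter.1 hj).1
  rw [Finset.sum_const, nsmul_eq_mul] at h2
  exact h2

/-- the points of `IG` in a window -/
lemma IG_window {N : ℕ} (hN : 1 ≤ N) (κ1 : ℝ) (hκ1 : 0 ≤ κ1) (j0 m : ℕ) (hj : j0 + m ≤ 4 * N) :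
    (m : ℝ) - 48 * (N : ℝ) ^ (2 * κ1) ≤ (((IG N κ1).filter (fun j => j ∈ Ico j0 (j0 + m))).card : ℝ) := by
  classical
  have hN0 : (0 : ℝ) < N := by exact_mod_cast (by omega : 0 < N)
  have hN1 : (1 : ℝ) ≤ N := by exact_mod_cast hN
  obtain ⟨Y, hY⟩ : ∃ Y : ℝ, Y = 4 * (N : ℝ) ^ κ1 := ⟨_, rfl⟩
  have hY1 : 1 ≤ Y := by
    have := Real.one_le_rpow hN1 hκ1
    rw [hY]; linarith
  have h1 := DD_count (4 * N) (by omega) Y hY1
  have h2 : Ico j0 (j0 + m) ⊆ (IG N κ1).filter (fun j => j ∈ Ico j0 (j0 + m)) ∪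
      (range (4 * N)).filter (fun j : ℕ => DD (4 * N) ((j : ℝ) / (4 * N : ℕ)) < Y) := by
    intro j hj'
    have hj4 : j < 4 * N := by rw [mem_Ico] at hj'; omega
    rw [mem_union]
    by_cases h3 : DD (4 * N) ((j : ℝ) / (4 * N : ℕ)) < Y
    · right; rw [mem_filter, mem_range]; exact ⟨hj4, h3⟩
    · left
      rw [mem_filter]
      refine ⟨?_, hj'⟩
      unfold IG
      rw [mem_filter, mem_range]
      exact ⟨hj4, by rw [← hY]; exact not_lt.1 h3⟩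
  have h3 := (card_le_card h2).trans (card_union_le _ _)
  rw [Nat.card_Ico, Nat.add_sub_cancel_left] at h3
  have h4 : (m : ℝ) ≤ (((IG N κ1).filter (fun j => j ∈ Ico j0 (j0 + m))).card : ℝ) +
      (((range (4 * N)).filter (fun j : ℕ => DD (4 * N) ((j : ℝ) / (4 * N : ℕ)) < Y)).card : ℝ) := by exact_mod_cast h3
  have h5 : 3 * Y ^ 2 = 48 * (N : ℝ) ^ (2 * κ1) := by
    rw [hY, mul_pow, ← Real.rpow_natCast ((N : ℝ) ^ κ1) 2, ← Real.rpow_mul hN0.le]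
    have : κ1 * ((2 : ℕ) : ℝ) = 2 * κ1 := by push_cast; ring
    rw [this]; ring
  rw [h5] at h1
  linarith

/-- the sum over the far points -/
lemma IG_sum' {N : ℕ} (hN : 1 ≤ N) (κ1 : ℝ) (hκ1 : 0 ≤ κ1) :
    ∑ j ∈ IG N κ1, (DD (4 * N) ((j : ℝ) / (4 * N : ℕ)) / 4) ^ (-(9 / 4) : ℝ) ≤ 3000 * (N : ℝ) ^ (-(κ1 / 8) : ℝ) := by
  have hN0 : (0 : ℝ) < N := by exact_mod_cast (by omega : 0 < N)
  have hN1 : (1 : ℝ) ≤ N := by exact_mod_cast (by omega : 1 ≤ N)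
  have hk : (1 : ℝ) ≤ (N : ℝ) ^ κ1 := Real.one_le_rpow hN1 hκ1
  have h1 := DD_sum2 (4 * N) (by omega) (4 * (N : ℝ) ^ κ1) (by linarith)
  have h2 : ∀ j ∈ IG N κ1, (DD (4 * N) ((j : ℝ) / (4 * N : ℕ)) / 4) ^ (-(9 / 4) : ℝ) ≤
      20 * (DD (4 * N) ((j : ℝ) / (4 * N : ℕ))) ^ (-(17 / 8) : ℝ) := by
    intro j hj
    obtain ⟨-, h3, -⟩ := IG_far hN hj
    set D := DD (4 * N) ((j : ℝ) / (4 * N : ℕ)) with hD
    have h4 : 1 ≤ D / 4 := hk.trans h3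
    have h5 : (D / 4) ^ (-(9 / 4) : ℝ) ≤ (D / 4) ^ (-(17 / 8) : ℝ) :=
      Real.rpow_le_rpow_of_exponent_le h4 (by norm_num)
    refine h5.trans ?_
    have hD0 : 0 < D := by linarith
    rw [Real.div_rpow hD0.le (by norm_num)]
    have h6 : (1 : ℝ) / 20 ≤ (4 : ℝ) ^ (-(17 / 8) : ℝ) := by
      rw [Real.rpow_neg (by norm_num), one_div]
      refine inv_anti₀ (by positivity) ?_
      have h7 : (4 : ℝ) ^ (17 / 8 : ℝ) = ((4 : ℝ) ^ 17) ^ (1 / 8 : ℝ) := by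
        rw [← Real.rpow_natCast, ← Real.rpow_mul (by norm_num)]; norm_num
      rw [h7]
      have h8 : (20 : ℝ) = ((20 : ℝ) ^ 8) ^ (1 / 8 : ℝ) := by
        rw [← Real.rpow_natCast, ← Real.rpow_mul (by norm_num)]; norm_num
      rw [h8]
      exact Real.rpow_le_rpow (by positivity) (by norm_num) (by norm_num)
    have h9 : 0 ≤ D ^ (-(17 / 8) : ℝ) := Real.rpow_nonneg hD0.le _
    rw [div_le_iff₀ (by positivity)]
    nlinarith
  refine (Finset.sum_le_sum h2).trans ?_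
  rw [← Finset.mul_sum]
  have h3 : (4 * (N : ℝ) ^ κ1) ^ (-(1 / 8) : ℝ) ≤ (N : ℝ) ^ (-(κ1 / 8) : ℝ) := by
    rw [Real.mul_rpow (by norm_num) (by positivity), ← Real.rpow_mul hN0.le]
    have h4 : (4 : ℝ) ^ (-(1 / 8) : ℝ) ≤ 1 := Real.rpow_le_one_of_one_le_of_nonpos (by norm_num) (by norm_num)
    have h5 : κ1 * -(1 / 8) = -(κ1 / 8) := by ring
    rw [h5]
    have h6 : 0 ≤ (N : ℝ) ^ (-(κ1 / 8) : ℝ) := by positivity
    nlinarith
  unfold IG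
  nlinarith

/-- the error of one step -/
lemma err_k {N : ℕ} (hN : 2 ≤ N) (k K b : ℕ) (hb : b ≤ K) (τ M S ℓ Ic r2 C C1 η Kσ κ κ1 g ρ : ℝ)
    (hτ : τ ≤ (N : ℝ) ^ (-ρ)) (hM : M ≤ 200 * (N : ℝ) ^ (11 / 4 * κ1)) (hM0 : 0 ≤ M)
    (hS : S ≤ r2 * Real.log N + C / 2 + Kσ * Real.log N + 2 * K) (hℓ : ℓ ≤ 7 * η * Real.log N + C1)
    (hI : (N : ℝ) ^ (1 - κ) / 4 ≤ Ic) (hg : g = 1 - κ - r2) (h1 : 11 / 4 * κ1 ≤ g / 8) (h2 : Kσ ≤ g / 8)
    (h3 : 70 * k * η ≤ g / 8) (hρ : ρ ≤ 5 * g / 8) :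
    4 * (20 * k * τ + M * Real.exp S * Real.exp (10 * k * (ℓ + 1)) / ((1 / 4) ^ b * Ic)) ≤
      (80 * k + 3200 * 4 ^ K * Real.exp (C / 2 + 2 * K + 10 * k * (C1 + 1))) * (N : ℝ) ^ (-ρ) := by
  have hN0 : (0 : ℝ) < N := by exact_mod_cast (by omega : 0 < N)
  have hN1 : (1 : ℝ) ≤ N := by exact_mod_cast (by omega : 1 ≤ N)
  have hL : 0 < Real.log N := Real.log_pos (by exact_mod_cast (by omega : 1 < N))
  have hNe : ∀ x : ℝ, (N : ℝ) ^ x = Real.exp (Real.log N * x) := fun x => Real.rpow_def_of_pos hN0 x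
  set L := Real.log N with hLdef
  have f4 : 1 / ((1 / 4 : ℝ) ^ b * Ic) ≤ 4 * 4 ^ K * (N : ℝ) ^ (-(1 - κ)) := by
    rw [Real.rpow_neg hN0.le]
    have hp : 0 < (N : ℝ) ^ (1 - κ) := by positivity
    have h5 : (1 : ℝ) ≤ 4 ^ K * (1 / 4) ^ b := by
      have h6 : (4 : ℝ) ^ b ≤ 4 ^ K := pow_le_pow_right₀ (by norm_num) hb
      have h7 : (4 : ℝ) ^ b * (1 / 4) ^ b = 1 := by rw [← mul_pow]; norm_num
      have h8 : (0 : ℝ) < (1 / 4) ^ b := by positivity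
      nlinarith
    have hIc : 0 < Ic := lt_of_lt_of_le (by positivity) hI
    rw [div_le_iff₀ (by positivity)]
    have h6 : 4 * 4 ^ K * ((N : ℝ) ^ (1 - κ))⁻¹ * ((1 / 4) ^ b * Ic) = (4 ^ K * (1 / 4) ^ b) * (4 * Ic * ((N : ℝ) ^ (1 - κ))⁻¹) := by
      ring
    rw [h6]
    have h7 : 1 ≤ 4 * Ic * ((N : ℝ) ^ (1 - κ))⁻¹ := by
      rw [← div_eq_mul_inv, le_div_iff₀ hp]
      linarith
    nlinarith
  have hIc0 : 0 < Ic := lt_of_lt_of_le (by positivity) hI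
  have e1 : M * Real.exp S * Real.exp (10 * k * (ℓ + 1)) / ((1 / 4) ^ b * Ic) =
      M * Real.exp S * Real.exp (10 * k * (ℓ + 1)) * (1 / ((1 / 4) ^ b * Ic)) := by ring
  have hk0 : (0 : ℝ) ≤ k := Nat.cast_nonneg k
  have e2 : Real.exp (10 * k * (ℓ + 1)) ≤ Real.exp (70 * k * η * L + 10 * k * (C1 + 1)) := by
    refine Real.exp_le_exp.2 ?_
    have h5 : 10 * (k : ℝ) * (ℓ + 1) ≤ 10 * k * (7 * η * L + C1 + 1) :=
      mul_le_mul_of_nonneg_left (by linarith) (by positivity)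
    linarith
  have e3 : M * Real.exp S * Real.exp (10 * k * (ℓ + 1)) * (1 / ((1 / 4) ^ b * Ic)) ≤
      (200 * (N : ℝ) ^ (11 / 4 * κ1)) * Real.exp (r2 * L + C / 2 + Kσ * L + 2 * K) *
        Real.exp (70 * k * η * L + 10 * k * (C1 + 1)) * (4 * 4 ^ K * (N : ℝ) ^ (-(1 - κ))) := by
    have hpos : 0 ≤ 1 / ((1 / 4 : ℝ) ^ b * Ic) := by positivity
    have hS' := Real.exp_le_exp.2 hS
    gcongr
  have e4 : (200 * (N : ℝ) ^ (11 / 4 * κ1)) * Real.exp (r2 * L + C / 2 + Kσ * L + 2 * K) *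
        Real.exp (70 * k * η * L + 10 * k * (C1 + 1)) * (4 * 4 ^ K * (N : ℝ) ^ (-(1 - κ))) ≤
      800 * 4 ^ K * Real.exp (C / 2 + 2 * K + 10 * k * (C1 + 1)) * (N : ℝ) ^ (-ρ) := by
    rw [hNe, hNe, hNe]
    have h5 : 200 * Real.exp (L * (11 / 4 * κ1)) * Real.exp (r2 * L + C / 2 + Kσ * L + 2 * K) *
        Real.exp (70 * k * η * L + 10 * k * (C1 + 1)) * (4 * 4 ^ K * Real.exp (L * (-(1 - κ)))) =
        800 * 4 ^ K * (Real.exp (L * (11 / 4 * κ1)) * Real.exp (r2 * L + C / 2 + Kσ * L + 2 * K) *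
        Real.exp (70 * k * η * L + 10 * k * (C1 + 1)) * Real.exp (L * (-(1 - κ)))) := by ring
    have h5' : 800 * 4 ^ K * Real.exp (C / 2 + 2 * K + 10 * k * (C1 + 1)) * Real.exp (L * -ρ) =
        800 * 4 ^ K * Real.exp (C / 2 + 2 * K + 10 * k * (C1 + 1) + L * -ρ) := by
      rw [mul_assoc (800 * 4 ^ K), ← Real.exp_add]
    rw [h5, h5', ← Real.exp_add, ← Real.exp_add, ← Real.exp_add]
    have h6 : (0 : ℝ) ≤ 800 * 4 ^ K := by positivity
    refine mul_le_mul_of_nonneg_left (Real.exp_le_exp.2 ?_) h6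
    have h7 : 11 / 4 * κ1 + r2 + Kσ + 70 * k * η - (1 - κ) ≤ -(5 * g / 8) := by rw [hg] at *; linarith
    have h8 : (11 / 4 * κ1 + r2 + Kσ + 70 * k * η - (1 - κ)) * L ≤ -ρ * L :=
      mul_le_mul_of_nonneg_right (by linarith) hL.le
    linarith
  have e5 : 0 ≤ (N : ℝ) ^ (-ρ) := by positivity
  have e6 : 20 * (k : ℝ) * τ ≤ 20 * k * (N : ℝ) ^ (-ρ) := mul_le_mul_of_nonneg_left hτ (by positivity)
  rw [e1]
  have e7 := e3.trans e4
  linarith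

end Pool.Agent.Helper51.EA
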