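import Pool.Agent.Helper11.EA3.ArcB
import Pool.Agent.Helper5.EA.Lo
import Pool.Agent.Helper5.EA3.IterK
import Pool.Agent.Helper85.EA.E10U

/-!
# Project EA, part 3, block V9, part C: the good event
-/

set_option autoImplicit false

namespace Pool.Agent.Helper51.EA

open Finset Pool.Agent.Helper5.RM Pool.Agent.Helper5.RS

lemma Far_mono11 {N : ℕ} {x D D' : ℝ} (h : Far N x D) (hD : D' ≤ D) : Far N x D' := fun m hm => hD.trans (h m hm)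

lemma Far_neg11 {N : ℕ} {x D : ℝ} (h : Far N x D) : Far N (-x) D := by
  intro m hm
  have h1 := h m hm
  rwa [mul_neg, nd_neg]

lemma XG_neg11 (N : ℕ) (A : Finset ℕ) (θ : ℝ) (p : ℕ) (T : Finset ℕ) :
    XG N A (-θ) p T = (starRingEnd ℂ) (XG N A θ p T) := by
  unfold XG
  rw [map_sum]
  refine Finset.sum_congr rfl fun m _ => ?_
  rw [map_mul, Complex.conj_ofReal, mul_neg, e_neg]

/-- the statement of block V4 -/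
def PairStmt : Prop := ∀ (κ c u : ℝ) (_ : 0 < κ) (_ : κ ≤ 1) (_ : 0 < c) (_ : c < 1 / 2) (_ : 0 < u), ∃ β : ℝ, 0 < β ∧
    ∀ (η : ℝ) (K : ℕ), 0 < η → u / 2 ≤ uu c η K 0 → ∃ N0 : ℕ, ∀ N : ℕ, N0 ≤ N → ∀ θ θ' : ℝ, Far N θ ((N : ℝ) ^ κ) →
    Far N θ' ((N : ℝ) ^ κ) → Far2 N ⌊(N : ℝ) ^ (κ / 4)⌋₊ θ θ' ((N : ℝ) ^ κ) → ∀ b < K,
    pr (PP N) (fun T => (N : ℝ) ^ (1 - β) < ‖∑ p ∈ Pb (yb N c η K b) (yb N c η K (b + 1)),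
      XG N (Sy N (yb N c η K b)) θ p T * XG N (Sy N (yb N c η K b)) θ' p T‖) ≤ (N : ℝ) ^ (-(4 : ℝ))

open Classical in
/-- the statement of block V6 -/
def NearStmt : Prop := ∀ (N A0 : ℕ) (_ : 1 ≤ N) (D : ℝ) (_ : 1 ≤ D) (_ : D ≤ N) (j : ℕ) (_ : j < 4 * N),
    ((((range (4 * N)).filter (fun j' : ℕ => ¬ (Far2 N A0 ((j : ℝ) / (4 * N : ℕ)) ((j' : ℝ) / (4 * N : ℕ)) D ∧
      Far2 N A0 ((j : ℝ) / (4 * N : ℕ)) (-((j' : ℝ) / (4 * N : ℕ))) D))).card : ℕ) : ℝ) ≤ 200 * A0 ^ 3 * D ^ 2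

/-- the statement of block V8 -/
def IterKStmt : Prop := ∀ (k : ℕ) (_ : 1 ≤ k) (S : Finset ℕ) (P : ℕ → Finset ℕ) (t t' : ℕ → ℕ → ℕ → Finset ℕ → ℝ) (K : ℕ)
    (I : Finset ℕ) (_ : I.Nonempty) (nr : ℕ → ℕ → Prop) (M : ℝ) (s τ ϑ : ℝ) (ℓ : ℕ → ℝ)
    (_ : ∀ j ∈ I, ∀ Q ⊆ I, (∀ i ∈ Q, nr j i) → (Q.card : ℝ) ≤ M) (_ : 0 ≤ M)
    (_ : ∀ b < K, P b ⊆ S) (_ : ∀ b < K, ∀ b' < K, b ≠ b' → Disjoint (P b) (P b'))
    (_ : ∀ b < K, ∀ p ∈ P b, ∀ j, ∀ b' < K, b ≤ b' → ∀ T, t b j p T = t b j p (T \ P b') ∧ t' b j p T = t' b j p (T \ P b'))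
    (_ : 0 < τ) (_ : ∀ b < K, k * τ * (ℓ b + 1) ≤ 1 / 1000) (_ : ∀ b < K, 0 ≤ ℓ b)
    (_ : 0 < ϑ) (_ : ϑ ≤ 1) (_ : ∀ b < K, ϑ ^ 2 * ℓ b / 2 + 6 ≤ ϑ * s),
    pr S (fun T => (∀ b < K, Gd2 P t t' τ ℓ I nr b T) ∧ ∑ j ∈ I, wt2 P t t' s ℓ j T K < (1 / 4) ^ K * I.card) ≤
      ∑ b ∈ range K, 5 * (4 * (20 * k * τ + M * Real.exp (∑ b' ∈ range b, (ℓ b' / 2 + s + 2)) *
        Real.exp (10 * k * (ℓ b + 1)) / ((1 / 4) ^ b * I.card))) ^ k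

/-- the near relation -/
def nr11 (N : ℕ) (κ1 : ℝ) (j i : ℕ) : Prop :=
  ¬ (Far2 N ⌊(N : ℝ) ^ (κ1 / 4)⌋₊ ((j : ℝ) / (4 * N : ℕ)) ((i : ℝ) / (4 * N : ℕ)) ((N : ℝ) ^ κ1) ∧
    Far2 N ⌊(N : ℝ) ^ (κ1 / 4)⌋₊ ((j : ℝ) / (4 * N : ℕ)) (-((i : ℝ) / (4 * N : ℕ))) ((N : ℝ) ^ κ1))

/-- the point conditions, in the directions `ω`, `-iω`, `e^(-iπ/4) ω` -/
def ptC (N : ℕ) (y : ℕ → ℕ) (β : ℝ) (ω : ℂ) (b j : ℕ) (T : Finset ℕ) : Prop :=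
  (∃ p ∈ Pb (y b) (y (b + 1)), (N : ℝ) ^ (1 / 2 - β) < |(ω * XG N (Sy N (y b)) ((j : ℝ) / (4 * N : ℕ)) p T).re|) ∨
    (N : ℝ) ^ (1 - β) < |∑ p ∈ Pb (y b) (y (b + 1)), (ω * XG N (Sy N (y b)) ((j : ℝ) / (4 * N : ℕ)) p T).re ^ 2 - vb N y b|

/-- all conditions of one step from the three directions and the pairs -/
lemma gd2_all {N : ℕ} (hN : 2 ≤ N) (y : ℕ → ℕ) (b : ℕ) (T : Finset ℕ) (lam β β1 β2 κ1 : ℝ) (ω : ℂ) (hω : ‖ω‖ = 1)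
    (hlam0 : 0 < lam) (hlam : lam ^ 2 ≤ 7 * Real.log N / N) (hβ : 0 < β) (hβ1 : β ≤ β1) (hβ2 : β ≤ β2)
    (hs : 14 * (1 + Real.log N) * (N : ℝ) ^ (-(β / 2)) ≤ 1) (I : Finset ℕ)
    (h1 : ∀ j ∈ I, ¬ ptC N y β1 ω b j T ∧ ¬ ptC N y β1 (-Complex.I * ω) b j T ∧
      ¬ ptC N y β1 ((1 - Complex.I) / (Real.sqrt 2 : ℝ) * ω) b j T)
    (h2 : ∀ j ∈ I, ∀ i ∈ I, ¬ nr11 N κ1 j i →
      ‖∑ p ∈ Pb (y b) (y (b + 1)), XG N (Sy N (y b)) ((j : ℝ) / (4 * N : ℕ)) p T *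
        XG N (Sy N (y b)) ((i : ℝ) / (4 * N : ℕ)) p T‖ ≤ (N : ℝ) ^ (1 - β2) ∧
      ‖∑ p ∈ Pb (y b) (y (b + 1)), XG N (Sy N (y b)) ((j : ℝ) / (4 * N : ℕ)) p T *
        XG N (Sy N (y b)) (-((i : ℝ) / (4 * N : ℕ))) p T‖ ≤ (N : ℝ) ^ (1 - β2)) :
    Gd2 (bl y) (tr lam ω N y) (ti lam ω N y) ((N : ℝ) ^ (-(β / 2))) (fun b => lam ^ 2 * vb N y b) I (nr11 N κ1) b T := by
  have hN1' : (1 : ℝ) ≤ N := by exact_mod_cast (by omega : 1 ≤ N)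
  have m1 : (N : ℝ) ^ (1 - β1) ≤ (N : ℝ) ^ (1 - β) := Real.rpow_le_rpow_of_exponent_le hN1' (by linarith)
  have m2 : (N : ℝ) ^ (1 / 2 - β1) ≤ (N : ℝ) ^ (1 / 2 - β) := Real.rpow_le_rpow_of_exponent_le hN1' (by linarith)
  have m3 : (N : ℝ) ^ (1 - β2) ≤ (N : ℝ) ^ (1 - β) := Real.rpow_le_rpow_of_exponent_le hN1' (by linarith)
  refine ⟨fun j hj => ?_, fun j hj i hi hn => ?_⟩
  · obtain ⟨k1, k2, k3⟩ := h1 j hj
    unfold ptC at k1 k2 k3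
    push Not at k1 k2 k3
    have e2 : ∀ w : ℂ, (-Complex.I * ω * w).re = (ω * w).im := fun w => by
      rw [mul_assoc, negI_re]
    have e3 : ∀ w : ℂ, ((1 - Complex.I) / (Real.sqrt 2 : ℝ) * ω * w).re ^ 2 =
        ((ω * w).re ^ 2 + (ω * w).im ^ 2) / 2 + (ω * w).re * (ω * w).im := fun w => by
      rw [mul_assoc, rot_sq]
    simp only [e2] at k2
    simp only [e3] at k3
    exact gd2_point hN y b j T lam β ω hlam0 hlam hβ hs (fun p hp => (k1.1 p hp).trans m2) (fun p hp => (k2.1 p hp).trans m2)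
      (k1.2.trans m1) (k2.2.trans m1) (k3.2.trans m1)
  · obtain ⟨k1, k2⟩ := h2 j hj i hi hn
    refine gd2_pair hN y b j i T lam β ω hω hlam hs (k1.trans m3) ?_
    refine le_trans (le_of_eq ?_) (k2.trans m3)
    congr 1
    refine Finset.sum_congr rfl fun p _ => ?_
    unfold xg
    rw [XG_neg11]

/-- the probability of the exceptional event for the points -/
lemma pr_points {N : ℕ} (hN : 1 ≤ N) (y : ℕ → ℕ) (K : ℕ) (κ1 β1 : ℝ) (ω : ℂ) (I : Finset ℕ) (hI : I ⊆ IG N κ1)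
    (h : ∀ j ∈ I, ∀ b < K, pr (PP N) (fun T => ptC N y β1 ω b j T) ≤ (N : ℝ) ^ (-(4 : ℝ))) :
    pr (PP N) (fun T => ∃ j ∈ I, ∃ b ∈ range K, ptC N y β1 ω b j T) ≤ 4 * K * (N : ℝ) ^ (-(3 : ℝ)) := by
  have hN0 : (0 : ℝ) < N := by exact_mod_cast (by omega : 0 < N)
  have hIc : (I.card : ℝ) ≤ 4 * N := by
    have h1 := card_le_card hI
    have h2 : (IG N κ1).card ≤ 4 * N := by
      unfold IG
      exact (card_filter_le _ _).trans (by rw [card_range])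
    exact_mod_cast h1.trans h2
  refine (pr_exists _ _ _).trans ?_
  have h1 : ∀ j ∈ I, pr (PP N) (fun T => ∃ b ∈ range K, ptC N y β1 ω b j T) ≤ K * (N : ℝ) ^ (-(4 : ℝ)) := by
    intro j hj
    refine (pr_exists _ _ _).trans ?_
    refine (Finset.sum_le_sum fun b hb => h j hj b (mem_range.1 hb)).trans (le_of_eq ?_)
    rw [sum_const, card_range, nsmul_eq_mul]
  refine (Finset.sum_le_sum h1).trans ?_
  rw [sum_const, nsmul_eq_mul]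
  have h2 : (N : ℝ) * (N : ℝ) ^ (-(4 : ℝ)) = (N : ℝ) ^ (-(3 : ℝ)) := by
    nth_rewrite 1 [← Real.rpow_one (N : ℝ)]
    rw [← Real.rpow_add hN0]; norm_num
  calc (I.card : ℝ) * (K * (N : ℝ) ^ (-(4 : ℝ))) ≤ (4 * N) * (K * (N : ℝ) ^ (-(4 : ℝ))) :=
        mul_le_mul_of_nonneg_right hIc (by positivity)
    _ = 4 * K * (N * (N : ℝ) ^ (-(4 : ℝ))) := by ring
    _ = _ := by rw [h2]

/-- the probability of the exceptional event for the pairs -/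
lemma pr_pairs {N : ℕ} (hN : 1 ≤ N) (K : ℕ) (κ1 : ℝ) (I : Finset ℕ) (hI : I ⊆ IG N κ1) (Q : ℕ → ℕ → ℕ → Finset ℕ → Prop)
    (h : ∀ j ∈ I, ∀ i ∈ I, ∀ b < K, pr (PP N) (fun T => Q j i b T) ≤ (N : ℝ) ^ (-(4 : ℝ))) :
    pr (PP N) (fun T => ∃ j ∈ I, ∃ i ∈ I, ∃ b ∈ range K, Q j i b T) ≤ 16 * K * (N : ℝ) ^ (-(2 : ℝ)) := by
  have hN0 : (0 : ℝ) < N := by exact_mod_cast (by omega : 0 < N)
  have hIc : (I.card : ℝ) ≤ 4 * N := by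
    have h1 := card_le_card hI
    have h2 : (IG N κ1).card ≤ 4 * N := by
      unfold IG
      exact (card_filter_le _ _).trans (by rw [card_range])
    exact_mod_cast h1.trans h2
  refine (pr_exists _ _ _).trans ?_
  have h0 : ∀ j ∈ I, ∀ i ∈ I, pr (PP N) (fun T => ∃ b ∈ range K, Q j i b T) ≤ K * (N : ℝ) ^ (-(4 : ℝ)) := by
    intro j hj i hi
    refine (pr_exists _ _ _).trans ?_
    refine (Finset.sum_le_sum fun b hb => h j hj i hi b (mem_range.1 hb)).trans (le_of_eq ?_)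
    rw [sum_const, card_range, nsmul_eq_mul]
  have h1 : ∀ j ∈ I, pr (PP N) (fun T => ∃ i ∈ I, ∃ b ∈ range K, Q j i b T) ≤ (4 * N) * (K * (N : ℝ) ^ (-(4 : ℝ))) := by
    intro j hj
    refine (pr_exists _ _ _).trans ((Finset.sum_le_sum (h0 j hj)).trans ?_)
    rw [sum_const, nsmul_eq_mul]
    exact mul_le_mul_of_nonneg_right hIc (by positivity)
  refine (Finset.sum_le_sum h1).trans ?_
  rw [sum_const, nsmul_eq_mul]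
  have h2 : (N : ℝ) * ((N : ℝ) * (N : ℝ) ^ (-(4 : ℝ))) = (N : ℝ) ^ (-(2 : ℝ)) := by
    nth_rewrite 1 [← Real.rpow_one (N : ℝ)]
    nth_rewrite 2 [← Real.rpow_one (N : ℝ)]
    rw [← Real.rpow_add hN0, ← Real.rpow_add hN0]; norm_num
  calc (I.card : ℝ) * ((4 * N) * (K * (N : ℝ) ^ (-(4 : ℝ)))) ≤ (4 * N) * ((4 * N) * (K * (N : ℝ) ^ (-(4 : ℝ)))) :=
        mul_le_mul_of_nonneg_right hIc (by positivity)
    _ = 16 * K * (N * (N * (N : ℝ) ^ (-(4 : ℝ)))) := by ring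
    _ = _ := by rw [h2]

/-- the probability of the exceptional event for the remainder -/
lemma pr_rest {N : ℕ} (hN : 1 ≤ N) (κ1 : ℝ) (hκ1 : 0 ≤ κ1) (Q : ℕ → Finset ℕ → Prop)
    (h : ∀ j ∈ IG N κ1, pr (PP N) (fun T => Q j T) ≤
      (DD (4 * N) ((j : ℝ) / (4 * N : ℕ)) / 4) ^ (-(9 / 4) : ℝ) + (N : ℝ) ^ (-(2 : ℝ))) :
    pr (PP N) (fun T => ∃ j ∈ IG N κ1, Q j T) ≤ 3000 * (N : ℝ) ^ (-(κ1 / 8) : ℝ) + 4 * (N : ℝ) ^ (-(1 : ℝ)) := by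
  have hN0 : (0 : ℝ) < N := by exact_mod_cast (by omega : 0 < N)
  have hIc : ((IG N κ1).card : ℝ) ≤ 4 * N := by
    have h2 : (IG N κ1).card ≤ 4 * N := by
      unfold IG
      exact (card_filter_le _ _).trans (by rw [card_range])
    exact_mod_cast h2
  refine (pr_exists _ _ _).trans ((Finset.sum_le_sum h).trans ?_)
  rw [sum_add_distrib, sum_const, nsmul_eq_mul]
  refine add_le_add (IG_sum' hN κ1 hκ1) ?_
  have h2 : (N : ℝ) * (N : ℝ) ^ (-(2 : ℝ)) = (N : ℝ) ^ (-(1 : ℝ)) := by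
    nth_rewrite 1 [← Real.rpow_one (N : ℝ)]
    rw [← Real.rpow_add hN0]; norm_num
  calc ((IG N κ1).card : ℝ) * (N : ℝ) ^ (-(2 : ℝ)) ≤ (4 * N) * (N : ℝ) ^ (-(2 : ℝ)) :=
        mul_le_mul_of_nonneg_right hIc (by positivity)
    _ = 4 * (N * (N : ℝ) ^ (-(2 : ℝ))) := by ring
    _ = _ := by rw [h2]

end Pool.Agent.Helper51.EA
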