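import Pool.Agent.Helper11.EA3.ArcC

/-!
# Project EA, part 3, block V9, part D: one window
-/

set_option autoImplicit false

namespace Pool.Agent.Helper51.EA

open Finset Pool.Agent.Helper5.RM Pool.Agent.Helper5.RS

lemma ev_log (A : ℝ) : ∃ N0 : ℕ, ∀ N : ℕ, N0 ≤ N → A ≤ Real.log N := by
  have h := (Real.tendsto_log_atTop.comp tendsto_natCast_atTop_atTop).eventually_ge_atTop A
  exact Filter.eventually_atTop.1 h

/-- the set of the far points in a window -/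
noncomputable def Iw (N : ℕ) (κ κ1 : ℝ) (j0 : ℕ) : Finset ℕ := (IG N κ1).filter (fun j => j ∈ Ico j0 (j0 + mw N κ))

lemma Iw_sub (N : ℕ) (κ κ1 : ℝ) (j0 : ℕ) : Iw N κ κ1 j0 ⊆ IG N κ1 := filter_subset _ _

/-- the number of the far points in a window -/
lemma Iw_card {N : ℕ} (hN : 1 ≤ N) (κ κ1 : ℝ) (hκ : κ ≤ 1) (hκ1 : 0 ≤ κ1) (j0 : ℕ) (hj : j0 + mw N κ ≤ 4 * N)
    (h : 192 * (N : ℝ) ^ (2 * κ1) ≤ (N : ℝ) ^ (1 - κ)) : (N : ℝ) ^ (1 - κ) / 4 ≤ ((Iw N κ κ1 j0).card : ℝ) := by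
  have h1 := IG_window hN κ1 hκ1 j0 (mw N κ) hj
  have h2 : (1 : ℝ) ≤ (N : ℝ) ^ (1 - κ) := Real.one_le_rpow (by exact_mod_cast hN) (by linarith)
  have h3 : (N : ℝ) ^ (1 - κ) / 2 ≤ (mw N κ : ℝ) := by
    unfold mw
    have h4 : (N : ℝ) ^ (1 - κ) < ⌊(N : ℝ) ^ (1 - κ)⌋₊ + 1 := Nat.lt_floor_add_one _
    have h5 : 1 ≤ ⌊(N : ℝ) ^ (1 - κ)⌋₊ := (Nat.one_le_floor_iff _).2 h2
    have h6 : (1 : ℝ) ≤ ⌊(N : ℝ) ^ (1 - κ)⌋₊ := by exact_mod_cast h5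
    linarith
  unfold Iw
  linarith

/-- the deterministic part: the number of the points in one window -/
lemma arc_det {N : ℕ} (hN : 2 ≤ N) (κ κ1 δ r σ C ε τ : ℝ) (z ω : ℂ) (hω : ‖ω‖ = 1) (hz : ω * z = (r : ℂ)) (hr0 : 0 < r)
    (hr1 : r ≤ 1) (hδ : 0 < δ) (y : ℕ → ℕ) (K j0 : ℕ) (T : Finset ℕ) (hτ0 : 0 < τ) (hτ1 : τ ≤ 1 / 2)
    (hτℓ : ∀ b < K, τ * (lm (1 - r) N ^ 2 * vb N y b + 1) ≤ 1) (nr : ℕ → ℕ → Prop)
    (hG : ∀ b < K, Gd2 (bl y) (tr (lm (1 - r) N) ω N y) (ti (lm (1 - r) N) ω N y) τ (fun b => lm (1 - r) N ^ 2 * vb N y b)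
      (Iw N κ κ1 j0) nr b T)
    (hrest : ∀ j ∈ IG N κ1, ‖SN N T ((j : ℝ) / (4 * N : ℕ)) - Mn N y K ((j : ℝ) / (4 * N : ℕ)) T‖ ≤ δ / 4 * tg N)
    (hW : (1 / 4 : ℝ) ^ K * (Iw N κ κ1 j0).card ≤ ∑ j ∈ Iw N κ κ1 j0, wt2 (bl y) (tr (lm (1 - r) N) ω N y)
      (ti (lm (1 - r) N) ω N y) (σ * Real.log N) (fun b => lm (1 - r) N ^ 2 * vb N y b) j T K)
    (hc : (6 / Real.pi ^ 2 - ε) * N ≤ ∑ b ∈ range K, 2 * vb N y b)
    (hd : ∑ b ∈ range K, lm (1 - r) N ^ 2 * vb N y b ≤ 2 * r ^ 2 * Real.log N + C)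
    (hσ : K * σ ≤ δ * r / 8) (hε0 : 0 ≤ ε) (hε : ε ≤ δ / 32) (hC : C ≤ δ * r / 8 * Real.log N)
    (hI : (N : ℝ) ^ (1 - κ) / 4 ≤ ((Iw N κ κ1 j0).card : ℝ)) :
    (1 / 4 : ℝ) ^ K / 4 * Real.exp (-(C / 2 + 2 * K)) * (N : ℝ) ^ (1 - κ - r ^ 2 - δ / 2) ≤
      (cw N (mw N κ) j0 (fun x => ‖SN N T x - z * (tg N : ℂ)‖ ≤ δ * tg N) : ℝ) := by
  classical
  have hN1 : 1 ≤ N := by omega
  have hN0 : (0 : ℝ) < N := by exact_mod_cast (by omega : 0 < N)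
  have hL : 0 < Real.log N := Real.log_pos (by exact_mod_cast (by omega : 1 < N))
  have htg := tg_pos hN
  have hw := wt2_le (bl y) (tr (lm (1 - r) N) ω N y) (ti (lm (1 - r) N) ω N y) (σ * Real.log N) τ
    (fun b => lm (1 - r) N ^ 2 * vb N y b) (Iw N κ κ1 j0) nr K hτ0 hτ1 hτℓ T hG
  obtain ⟨E, hE⟩ : ∃ E : ℝ, E = Real.exp (∑ b ∈ range K, ((fun b => lm (1 - r) N ^ 2 * vb N y b) b / 2 + σ * Real.log N + 2)) :=
    ⟨_, rfl⟩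
  rw [← hE] at hw
  have hE0 : 0 < E := by rw [hE]; exact Real.exp_pos _
  have h1 := count_pos (Iw N κ κ1 j0) (fun j => wt2 (bl y) (tr (lm (1 - r) N) ω N y) (ti (lm (1 - r) N) ω N y)
    (σ * Real.log N) (fun b => lm (1 - r) N ^ 2 * vb N y b) j T K) E ((1 / 4 : ℝ) ^ K) hE0 (fun j hj => (hw j hj).1)
    (fun j hj => (hw j hj).2.1) hW
  -- the points
  have h2 : (Iw N κ κ1 j0).filter (fun j => 0 < wt2 (bl y) (tr (lm (1 - r) N) ω N y) (ti (lm (1 - r) N) ω N y)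
      (σ * Real.log N) (fun b => lm (1 - r) N ^ 2 * vb N y b) j T K) ⊆
      (Ico j0 (j0 + mw N κ)).filter (fun j : ℕ => ‖SN N T ((j : ℝ) / (4 * N : ℕ)) - z * (tg N : ℂ)‖ ≤ δ * tg N) := by
    intro j hj
    rw [mem_filter] at hj
    have hj1 : j ∈ IG N κ1 ∧ j ∈ Ico j0 (j0 + mw N κ) := by
      have := hj.1
      unfold Iw at this
      rwa [mem_filter] at this
    rw [mem_filter]
    refine ⟨hj1.2, ?_⟩
    have h3 := (hw j hj.1).2.2 hj.2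
    have h4 := loc_det hN r δ ε σ C hr0 hr1 hδ ω y K j T (fun b hb => (h3 b hb).1) (fun b hb => (h3 b hb).2) hc hd hσ hε0 hε hC
    have h5 := hrest j hj1.1
    set M := Mn N y K ((j : ℝ) / (4 * N : ℕ)) T with hM
    have h6 : ‖M - z * (tg N : ℂ)‖ ≤ δ / 4 * tg N := by
      have h7 : ω * M - ((r * tg N : ℝ) : ℂ) = ω * (M - z * (tg N : ℂ)) := by
        rw [mul_sub, ← mul_assoc ω z, hz]
        push_cast
        ring
      rw [h7, norm_mul, hω, one_mul] at h4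
      exact h4
    have h8 : SN N T ((j : ℝ) / (4 * N : ℕ)) - z * (tg N : ℂ) = (SN N T ((j : ℝ) / (4 * N : ℕ)) - M) + (M - z * (tg N : ℂ)) := by
      ring
    rw [h8]
    refine (norm_add_le _ _).trans ?_
    have h9 : 0 < δ * tg N := by positivity
    linarith
  have h3 : (((Iw N κ κ1 j0).filter (fun j => 0 < wt2 (bl y) (tr (lm (1 - r) N) ω N y) (ti (lm (1 - r) N) ω N y)
      (σ * Real.log N) (fun b => lm (1 - r) N ^ 2 * vb N y b) j T K)).card : ℝ) ≤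
      (cw N (mw N κ) j0 (fun x => ‖SN N T x - z * (tg N : ℂ)‖ ≤ δ * tg N) : ℝ) := by
    unfold cw
    have := card_le_card h2
    have h9 : (((Iw N κ κ1 j0).filter (fun j => 0 < wt2 (bl y) (tr (lm (1 - r) N) ω N y) (ti (lm (1 - r) N) ω N y)
      (σ * Real.log N) (fun b => lm (1 - r) N ^ 2 * vb N y b) j T K)).card : ℝ) ≤
      (((Ico j0 (j0 + mw N κ)).filter (fun j : ℕ => ‖SN N T ((j : ℝ) / (4 * N : ℕ)) - z * (tg N : ℂ)‖ ≤ δ * tg N)).card : ℝ) := by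
      exact_mod_cast this
    convert h9
  refine le_trans ?_ (h1.trans h3)
  -- the size of the weights
  have hEle : E ≤ Real.exp (C / 2 + 2 * K) * (N : ℝ) ^ (r ^ 2 + δ / 2) := by
    rw [hE, Real.rpow_def_of_pos hN0, ← Real.exp_add]
    refine Real.exp_le_exp.2 ?_
    have e1 : ∑ b ∈ range K, ((fun b => lm (1 - r) N ^ 2 * vb N y b) b / 2 + σ * Real.log N + 2) =
        (∑ b ∈ range K, lm (1 - r) N ^ 2 * vb N y b) / 2 + K * (σ * Real.log N + 2) := by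
      rw [Finset.sum_div]
      have : ∀ b ∈ range K, ((fun b => lm (1 - r) N ^ 2 * vb N y b) b / 2 + σ * Real.log N + 2) =
          lm (1 - r) N ^ 2 * vb N y b / 2 + (σ * Real.log N + 2) := fun b _ => by ring
      rw [Finset.sum_congr rfl this, sum_add_distrib, sum_const, card_range, nsmul_eq_mul]
    rw [e1]
    have e2 : (K : ℝ) * σ * Real.log N ≤ δ / 2 * Real.log N := by
      refine mul_le_mul_of_nonneg_right (hσ.trans ?_) hL.le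
      nlinarith
    linarith
  rw [le_div_iff₀ hE0]
  have h4 : (1 / 4 : ℝ) ^ K / 4 * Real.exp (-(C / 2 + 2 * K)) * (N : ℝ) ^ (1 - κ - r ^ 2 - δ / 2) * E ≤
      (1 / 4 : ℝ) ^ K / 4 * Real.exp (-(C / 2 + 2 * K)) * (N : ℝ) ^ (1 - κ - r ^ 2 - δ / 2) *
        (Real.exp (C / 2 + 2 * K) * (N : ℝ) ^ (r ^ 2 + δ / 2)) := mul_le_mul_of_nonneg_left hEle (by positivity)
  refine h4.trans ?_
  have h5 : (N : ℝ) ^ (1 - κ - r ^ 2 - δ / 2) * (N : ℝ) ^ (r ^ 2 + δ / 2) = (N : ℝ) ^ (1 - κ) := by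
    rw [← Real.rpow_add hN0]; congr 1; ring
  have h6 : Real.exp (-(C / 2 + 2 * K)) * Real.exp (C / 2 + 2 * K) = 1 := by rw [← Real.exp_add]; simp
  have h7 : (1 / 4 : ℝ) ^ K / 4 * Real.exp (-(C / 2 + 2 * K)) * (N : ℝ) ^ (1 - κ - r ^ 2 - δ / 2) *
        (Real.exp (C / 2 + 2 * K) * (N : ℝ) ^ (r ^ 2 + δ / 2)) =
      (1 / 4 : ℝ) ^ K / 4 * (Real.exp (-(C / 2 + 2 * K)) * Real.exp (C / 2 + 2 * K)) *
        ((N : ℝ) ^ (1 - κ - r ^ 2 - δ / 2) * (N : ℝ) ^ (r ^ 2 + δ / 2)) := by ring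
  rw [h7, h5, h6]
  have h8 : (0 : ℝ) < (1 / 4) ^ K := by positivity
  nlinarith

/-- the probability of a small weight in one window -/
lemma arc_win (hiter : IterKStmt) (hnear : NearStmt) {N : ℕ} (hN : 2 ≤ N) (k : ℕ) (hk : 1 ≤ k)
    (κ κ1 r σ C C1 η β ρ g : ℝ) (hκ10 : 0 ≤ κ1) (hκ11 : κ1 ≤ 1) (ω : ℂ) (y : ℕ → ℕ) (hy : Monotone y) (K : ℕ) (hyK : y K ≤ N)
    (j0 : ℕ) (hI : (N : ℝ) ^ (1 - κ) / 4 ≤ ((Iw N κ κ1 j0).card : ℝ)) (hℓ0 : ∀ b, 0 ≤ lm (1 - r) N ^ 2 * vb N y b)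
    (hτk : ∀ b < K, k * (N : ℝ) ^ (-(β / 2)) * (lm (1 - r) N ^ 2 * vb N y b + 1) ≤ 1 / 1000)
    (hℓ1 : ∀ b, lm (1 - r) N ^ 2 * vb N y b ≤ 7 * η * Real.log N + C1)
    (hσ0 : 0 < σ) (hσ1 : σ ≤ 1) (hs : ∀ b < K, σ ^ 2 * (lm (1 - r) N ^ 2 * vb N y b) / 2 + 6 ≤ σ * (σ * Real.log N))
    (hS : ∀ b ≤ K, ∑ b' ∈ range b, lm (1 - r) N ^ 2 * vb N y b' ≤ 2 * r ^ 2 * Real.log N + C)
    (hρ : ρ ≤ β / 2) (hg : g = 1 - κ - r ^ 2) (h1 : 11 / 4 * κ1 ≤ g / 8) (h2 : K * σ ≤ g / 8) (h3 : 70 * k * η ≤ g / 8)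
    (hρ2 : ρ ≤ 5 * g / 8) :
    pr (PP N) (fun T => (∀ b < K, Gd2 (bl y) (tr (lm (1 - r) N) ω N y) (ti (lm (1 - r) N) ω N y) ((N : ℝ) ^ (-(β / 2)))
        (fun b => lm (1 - r) N ^ 2 * vb N y b) (Iw N κ κ1 j0) (nr11 N κ1) b T) ∧
      ∑ j ∈ Iw N κ κ1 j0, wt2 (bl y) (tr (lm (1 - r) N) ω N y) (ti (lm (1 - r) N) ω N y) (σ * Real.log N)
        (fun b => lm (1 - r) N ^ 2 * vb N y b) j T K < (1 / 4 : ℝ) ^ K * (Iw N κ κ1 j0).card) ≤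
      K * (5 * ((80 * k + 3200 * 4 ^ K * Real.exp (C / 2 + 2 * K + 10 * k * (C1 + 1))) * (N : ℝ) ^ (-ρ)) ^ k) := by
  have hN1 : 1 ≤ N := by omega
  have hN0 : (0 : ℝ) < N := by exact_mod_cast (by omega : 0 < N)
  have hN1' : (1 : ℝ) ≤ N := by exact_mod_cast hN1
  have hL : 0 < Real.log N := Real.log_pos (by exact_mod_cast (by omega : 1 < N))
  have hIc : (0 : ℝ) < ((Iw N κ κ1 j0).card : ℝ) := lt_of_lt_of_le (by positivity) hI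
  have hIn : (Iw N κ κ1 j0).Nonempty := by
    rw [← Finset.card_pos]; exact_mod_cast hIc
  have hτ0 : 0 < (N : ℝ) ^ (-(β / 2)) := by positivity
  -- the near points
  have hD1 : (1 : ℝ) ≤ (N : ℝ) ^ κ1 := Real.one_le_rpow hN1' hκ10
  have hDN : (N : ℝ) ^ κ1 ≤ N := by
    calc (N : ℝ) ^ κ1 ≤ (N : ℝ) ^ (1 : ℝ) := Real.rpow_le_rpow_of_exponent_le hN1' hκ11
      _ = N := Real.rpow_one _
  obtain ⟨A0, hA0⟩ : ∃ A0 : ℕ, A0 = ⌊(N : ℝ) ^ (κ1 / 4)⌋₊ := ⟨_, rfl⟩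
  obtain ⟨M, hM⟩ : ∃ M : ℝ, M = 200 * (A0 : ℝ) ^ 3 * ((N : ℝ) ^ κ1) ^ 2 := ⟨_, rfl⟩
  have hM0 : 0 ≤ M := by rw [hM]; positivity
  have hMle : M ≤ 200 * (N : ℝ) ^ (11 / 4 * κ1) := by
    have h4 : (A0 : ℝ) ≤ (N : ℝ) ^ (κ1 / 4) := by rw [hA0]; exact Nat.floor_le (by positivity)
    have h5 : (A0 : ℝ) ^ 3 ≤ ((N : ℝ) ^ (κ1 / 4)) ^ 3 := pow_le_pow_left₀ (Nat.cast_nonneg _) h4 3
    have h6 : ((N : ℝ) ^ (κ1 / 4)) ^ 3 * ((N : ℝ) ^ κ1) ^ 2 = (N : ℝ) ^ (11 / 4 * κ1) := by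
      rw [← Real.rpow_natCast, ← Real.rpow_mul hN0.le, ← Real.rpow_natCast, ← Real.rpow_mul hN0.le, ← Real.rpow_add hN0]
      congr 1
      push_cast
      ring
    rw [hM, ← h6]
    have h7 : (0 : ℝ) ≤ ((N : ℝ) ^ κ1) ^ 2 := by positivity
    nlinarith
  have hMn : ∀ j ∈ Iw N κ κ1 j0, ∀ Q ⊆ Iw N κ κ1 j0, (∀ i ∈ Q, nr11 N κ1 j i) → (Q.card : ℝ) ≤ M := by
    classical
    intro j hj Q hQ hQn
    have hj4 : ∀ i ∈ Iw N κ κ1 j0, i < 4 * N := by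
      intro i hi
      have := Iw_sub N κ κ1 j0 hi
      unfold IG at this
      rw [mem_filter, mem_range] at this
      exact this.1
    have h4 := hnear N A0 hN1 ((N : ℝ) ^ κ1) hD1 hDN j (hj4 j hj)
    rw [← hM] at h4
    refine le_trans ?_ h4
    have h5 : Q ⊆ (range (4 * N)).filter (fun j' : ℕ => ¬ (Far2 N A0 ((j : ℝ) / (4 * N : ℕ)) ((j' : ℝ) / (4 * N : ℕ)) ((N : ℝ) ^ κ1) ∧
      Far2 N A0 ((j : ℝ) / (4 * N : ℕ)) (-((j' : ℝ) / (4 * N : ℕ))) ((N : ℝ) ^ κ1))) := by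
      intro i hi
      rw [mem_filter, mem_range]
      refine ⟨hj4 i (hQ hi), ?_⟩
      have := hQn i hi
      unfold nr11 at this
      rw [← hA0] at this
      exact this
    have h6 := card_le_card h5
    have h7 : (Q.card : ℝ) ≤ (((range (4 * N)).filter (fun j' : ℕ => ¬ (Far2 N A0 ((j : ℝ) / (4 * N : ℕ)) ((j' : ℝ) / (4 * N : ℕ)) ((N : ℝ) ^ κ1) ∧
      Far2 N A0 ((j : ℝ) / (4 * N : ℕ)) (-((j' : ℝ) / (4 * N : ℕ))) ((N : ℝ) ^ κ1)))).card : ℝ) := by exact_mod_cast h6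
    convert h7
  have h4 := hiter k hk (PP N) (bl y) (tr (lm (1 - r) N) ω N y) (ti (lm (1 - r) N) ω N y) K (Iw N κ κ1 j0) hIn (nr11 N κ1) M
    (σ * Real.log N) ((N : ℝ) ^ (-(β / 2))) σ (fun b => lm (1 - r) N ^ 2 * vb N y b) hMn hM0
    (fun b hb => bl_sub hy hyK hb) (fun b _ b' _ hne => bl_disj hy hne)
    (fun b _ p _ j b' _ hbb T => by
      refine ⟨?_, ?_⟩
      · unfold tr; rw [xg_sdiff hy hbb]
      · unfold ti; rw [xg_sdiff hy hbb])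
    hτ0 hτk (fun b _ => hℓ0 b) hσ0 hσ1 hs
  refine h4.trans ?_
  have h5 : ∀ b ∈ range K, 5 * (4 * (20 * k * (N : ℝ) ^ (-(β / 2)) + M * Real.exp (∑ b' ∈ range b,
      ((fun b => lm (1 - r) N ^ 2 * vb N y b) b' / 2 + σ * Real.log N + 2)) *
        Real.exp (10 * k * ((fun b => lm (1 - r) N ^ 2 * vb N y b) b + 1)) / ((1 / 4) ^ b * (Iw N κ κ1 j0).card))) ^ k ≤
      5 * ((80 * k + 3200 * 4 ^ K * Real.exp (C / 2 + 2 * K + 10 * k * (C1 + 1))) * (N : ℝ) ^ (-ρ)) ^ k := by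
    intro b hb
    have hbK : b ≤ K := (mem_range.1 hb).le
    have e0 : ∑ b' ∈ range b, ((fun b => lm (1 - r) N ^ 2 * vb N y b) b' / 2 + σ * Real.log N + 2) ≤
        r ^ 2 * Real.log N + C / 2 + K * σ * Real.log N + 2 * K := by
      have e1 : ∑ b' ∈ range b, ((fun b => lm (1 - r) N ^ 2 * vb N y b) b' / 2 + σ * Real.log N + 2) =
          (∑ b' ∈ range b, lm (1 - r) N ^ 2 * vb N y b') / 2 + b * (σ * Real.log N + 2) := by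
        rw [Finset.sum_div]
        have : ∀ b' ∈ range b, ((fun b => lm (1 - r) N ^ 2 * vb N y b) b' / 2 + σ * Real.log N + 2) =
            lm (1 - r) N ^ 2 * vb N y b' / 2 + (σ * Real.log N + 2) := fun b' _ => by ring
        rw [Finset.sum_congr rfl this, sum_add_distrib, sum_const, card_range, nsmul_eq_mul]
      rw [e1]
      have e2 := hS b hbK
      have e3 : (b : ℝ) * (σ * Real.log N + 2) ≤ K * (σ * Real.log N + 2) := by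
        refine mul_le_mul_of_nonneg_right (by exact_mod_cast hbK) ?_
        positivity
      linarith
    have e4 := err_k hN k K b hbK ((N : ℝ) ^ (-(β / 2))) M
      (∑ b' ∈ range b, ((fun b => lm (1 - r) N ^ 2 * vb N y b) b' / 2 + σ * Real.log N + 2))
      ((fun b => lm (1 - r) N ^ 2 * vb N y b) b) ((Iw N κ κ1 j0).card) (r ^ 2) C C1 η (K * σ) κ κ1 g ρ
      (Real.rpow_le_rpow_of_exponent_le hN1' (by linarith)) hMle hM0 e0 (hℓ1 b) hI hg h1 h2 h3 hρ2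
    refine mul_le_mul_of_nonneg_left (pow_le_pow_left₀ ?_ e4 k) (by norm_num)
    positivity
  refine (Finset.sum_le_sum h5).trans (le_of_eq ?_)
  rw [sum_const, card_range, nsmul_eq_mul]

end Pool.Agent.Helper51.EA
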