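import Pool.Agent.Helper11.EA3.ArcD

/-!
# Project EA, part 3, block V9, part E: assembly
-/

set_option autoImplicit false

namespace Pool.Agent.Helper51.EA

open Finset Pool.Agent.Helper5.RM Pool.Agent.Helper5.RS

lemma sm11 {a L t : ℝ} (ha : 0 ≤ a) (hL : 0 ≤ L) (ht : 0 ≤ t) (h : a * (1 + L) * t ≤ 1) : a * t ≤ 1 := by
  have h1 : 0 ≤ a * L * t := by positivity
  linarith

lemma sm11' {a L t : ℝ} (ha : 0 ≤ a) (hL : 0 ≤ L) (ht : 0 ≤ t) : a * t ≤ a * (1 + L) * t := by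
  have h1 : 0 ≤ a * L * t := by positivity
  linarith

lemma mul_le11 {a b : ℝ} (ha : 0 ≤ a) (hb : b ≤ 1) : a * b ≤ a := mul_le_of_le_one_right ha hb

lemma le_mul11 {k x : ℝ} (hk : 1 ≤ k) (hx : 0 ≤ x) : x ≤ k * x := le_mul_of_one_le_left hx hk

/-- V9 for `z ≠ 0` -/
theorem arc_N_ne (hpair : PairStmt) (hnear : NearStmt) (hiter : IterKStmt) (κ δ : ℝ) (z : ℂ) (hκ0 : 0 ≤ κ) (hδ : 0 < δ)
    (hz : ‖z‖ ^ 2 < 1 - κ) (hz0 : z ≠ 0) : ∃ (c : ℝ) (N0 : ℕ), 0 < c ∧ ∀ N : ℕ, N0 ≤ N →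
    pr (PP N) (fun T => ∃ j0 : ℕ, j0 + mw N κ ≤ 4 * N ∧ (cw N (mw N κ) j0 (fun x => ‖SN N T x - z * (tg N : ℂ)‖ ≤ δ * tg N) : ℝ) <
      (N : ℝ) ^ (1 - κ - ‖z‖ ^ 2 - δ)) ≤ (N : ℝ) ^ (-c) := by
  classical
  obtain ⟨r, hrdef⟩ : ∃ r, r = ‖z‖ := ⟨_, rfl⟩
  rw [← hrdef] at hz ⊢
  have hr0 : 0 < r := by rw [hrdef]; exact norm_pos_iff.2 hz0
  have hr1 : r ≤ 1 := by nlinarith
  obtain ⟨ω, hωdef⟩ : ∃ ω : ℂ, ω = (starRingEnd ℂ) z / (r : ℂ) := ⟨_, rfl⟩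
  have hω : ‖ω‖ = 1 := by
    rw [hωdef, norm_div, RCLike.norm_conj, Complex.norm_real, Real.norm_of_nonneg hr0.le, ← hrdef, div_self hr0.ne']
  have hωz : ω * z = (r : ℂ) := by
    have h1 : (starRingEnd ℂ) z * z = ((r ^ 2 : ℝ) : ℂ) := by
      rw [mul_comm, Complex.mul_conj, Complex.normSq_eq_norm_sq, ← hrdef]
    rw [hωdef, div_mul_eq_mul_div, h1]
    have h2 : (r : ℂ) ≠ 0 := by exact_mod_cast hr0.ne'
    field_simp
    push_cast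
    ring
  obtain ⟨g, hg⟩ : ∃ g, g = 1 - κ - r ^ 2 := ⟨_, rfl⟩
  have hg0 : 0 < g := by rw [hg]; linarith
  have hg1 : g ≤ 1 := by rw [hg]; nlinarith [sq_nonneg r]
  obtain ⟨κ1, hκ1⟩ : ∃ κ1, κ1 = g / 22 := ⟨_, rfl⟩
  have hκ10 : 0 < κ1 := by rw [hκ1]; positivity
  have hκ11 : κ1 ≤ 1 := by rw [hκ1]; linarith
  obtain ⟨c0, u0, hc0, hc01, hu0, hu01, hG⟩ := vb_ge (δ / 32) (by positivity)
  obtain ⟨c0', u0', hc0', hc01', hu0', hu01', hR⟩ := rest_small κ1 (δ / 4) hκ10 (by positivity)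
  obtain ⟨c, hcdef⟩ : ∃ c, c = min c0 c0' := ⟨_, rfl⟩
  obtain ⟨u, hudef⟩ : ∃ u, u = min u0 u0' := ⟨_, rfl⟩
  have hc : 0 < c := by rw [hcdef]; exact lt_min hc0 hc0'
  have hc1 : c < 1 / 2 := by rw [hcdef]; exact lt_of_le_of_lt (min_le_left _ _) hc01
  have hc1' : c < 1 := by linarith
  have hu : 0 < u := by rw [hudef]; exact lt_min hu0 hu0'
  have hu1 : u < 1 / 2 := by rw [hudef]; exact lt_of_le_of_lt (min_le_left _ _) hu01
  obtain ⟨η1, hη1, hG1⟩ := hG c u hc (by rw [hcdef]; exact min_le_left _ _) hu (by rw [hudef]; exact min_le_left _ _)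
  obtain ⟨η2, hη2, hR1⟩ := hR c u hc (by rw [hcdef]; exact min_le_right _ _) hu (by rw [hudef]; exact min_le_right _ _)
  obtain ⟨β1, hβ1, hcond⟩ := cond_okU κ1 c u hκ10 hc hc1 hu
  obtain ⟨NC, hNC⟩ := hcond 4
  obtain ⟨β2, hβ2, hpair'⟩ := hpair κ1 c u hκ10 hκ11 hc hc1 hu
  obtain ⟨β, hβdef⟩ : ∃ β, β = min β1 β2 := ⟨_, rfl⟩
  have hβ : 0 < β := by rw [hβdef]; exact lt_min hβ1 hβ2
  have hβa : β ≤ β1 := by rw [hβdef]; exact min_le_left _ _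
  have hβb : β ≤ β2 := by rw [hβdef]; exact min_le_right _ _
  obtain ⟨ρ, hρdef⟩ : ∃ ρ, ρ = min (β / 2) (5 * g / 8) := ⟨_, rfl⟩
  have hρ : 0 < ρ := by rw [hρdef]; exact lt_min (by positivity) (by positivity)
  have hρa : ρ ≤ β / 2 := by rw [hρdef]; exact min_le_left _ _
  have hρb : ρ ≤ 5 * g / 8 := by rw [hρdef]; exact min_le_right _ _
  obtain ⟨k, hkdef⟩ : ∃ k : ℕ, k = ⌈4 / ρ⌉₊ + 1 := ⟨_, rfl⟩
  have hk : 1 ≤ k := by omega
  have hk0 : (0 : ℝ) < k := by exact_mod_cast hk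
  have hkρ : 4 ≤ ρ * k := by
    have h1 : 4 / ρ ≤ (k : ℝ) := by
      rw [hkdef]; push_cast
      have := Nat.le_ceil (4 / ρ)
      linarith
    rw [div_le_iff₀ hρ] at h1
    linarith
  obtain ⟨η, hηdef⟩ : ∃ η, η = min (min η1 η2) (g / (560 * k)) := ⟨_, rfl⟩
  have hη : 0 < η := by rw [hηdef]; exact lt_min (lt_min hη1 hη2) (by positivity)
  have hηa : η ≤ η1 := by rw [hηdef]; exact (min_le_left _ _).trans (min_le_left _ _)
  have hηb : η ≤ η2 := by rw [hηdef]; exact (min_le_left _ _).trans (min_le_right _ _)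
  have hηc : 70 * k * η ≤ g / 8 := by
    have h1 : η ≤ g / (560 * k) := by rw [hηdef]; exact min_le_right _ _
    rw [le_div_iff₀ (by positivity)] at h1
    linarith
  have hηd : 70 * η ≤ 1 / 8 := by
    have h1 : (1 : ℝ) ≤ k := by exact_mod_cast hk
    have h2 : 70 * η ≤ k * (70 * η) := le_mul11 h1 (by positivity)
    linarith
  obtain ⟨K, hK1, hKu, hKu'⟩ := exists_K hc1 hu hu1 hη (by linarith : η ≤ 1)
  have hK0 : (0 : ℝ) < K := by exact_mod_cast (by omega : 0 < K)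
  have hK1' : (1 : ℝ) ≤ K := by exact_mod_cast hK1
  obtain ⟨σ, hσdef⟩ : ∃ σ, σ = min (δ * r / 8) (g / 8) / K := ⟨_, rfl⟩
  have hmin0 : 0 < min (δ * r / 8) (g / 8) := lt_min (by positivity) (by positivity)
  have hσ0 : 0 < σ := by rw [hσdef]; positivity
  have hKσ : (K : ℝ) * σ = min (δ * r / 8) (g / 8) := by rw [hσdef]; field_simp
  have hKσa : (K : ℝ) * σ ≤ δ * r / 8 := by rw [hKσ]; exact min_le_left _ _
  have hKσb : (K : ℝ) * σ ≤ g / 8 := by rw [hKσ]; exact min_le_right _ _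
  have hσ1 : σ ≤ 1 := by
    have h1 : σ ≤ K * σ := le_mul_of_one_le_left hσ0.le hK1'
    linarith
  obtain ⟨NG, hNG⟩ := hG1 η K hη hηa hKu hKu'
  obtain ⟨NR, hNR⟩ := hR1 η K hη hηb hKu hKu'
  obtain ⟨NP, hNP⟩ := hpair' η K hη hKu
  obtain ⟨Ce, hCe, hell⟩ := ell_sum smooth_le vb_le
  obtain ⟨C1, hC1, NE, hNE⟩ := ell_one pb_inv u hu
  obtain ⟨Na, hNa⟩ := ev_small 14 (β / 2) (by positivity)
  obtain ⟨Nb, hNb⟩ := ev_small (1000 * k * (7 * η + C1 + 2)) (β / 2) (by positivity)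
  obtain ⟨Nc, hNc⟩ := ev_small 192 (10 * g / 11) (by positivity)
  obtain ⟨cc, hccdef⟩ : ∃ cc : ℝ, cc = (1 / 4 : ℝ) ^ K / 4 * Real.exp (-(Ce / 2 + 2 * K)) := ⟨_, rfl⟩
  have hcc0 : 0 < cc := by rw [hccdef]; positivity
  obtain ⟨Nd, hNd⟩ := ev_small (1 / cc) (δ / 2) (by positivity)
  obtain ⟨Ne, hNe⟩ := ev_log (max (C1 + 12 / σ ^ 2) (Ce / (δ * r / 8)))
  obtain ⟨C', hC'def⟩ : ∃ C' : ℝ, C' = 80 * k + 3200 * 4 ^ K * Real.exp (Ce / 2 + 2 * K + 10 * k * (C1 + 1)) := ⟨_, rfl⟩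
  have hC'0 : 0 < C' := by rw [hC'def]; positivity
  obtain ⟨C3, hC3def⟩ : ∃ C3 : ℝ, C3 = 12 * K + 32 * K + 3004 + 25 * K * C' ^ k := ⟨_, rfl⟩
  have hC30 : 0 < C3 := by rw [hC3def]; positivity
  obtain ⟨Nf, hNf⟩ := ev_small C3 (κ1 / 16) (by positivity)
  refine ⟨κ1 / 16, max NG (max NR (max NC (max NP (max NE (max Na (max Nb (max Nc (max Nd (max Ne (max Nf 2)))))))))),
    by positivity, fun N hN => ?_⟩
  simp only [max_le_iff] at hN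
  obtain ⟨n1, n2, n3, n4, n5, n6, n7, n8, n9, n10, n11, n12⟩ := hN
  have hN2 : 2 ≤ N := n12
  have hN1 : 1 ≤ N := by omega
  have hN0 : (0 : ℝ) < N := by exact_mod_cast (by omega : 0 < N)
  have hN1' : (1 : ℝ) ≤ N := by exact_mod_cast hN1
  have hL : 0 < Real.log N := Real.log_pos (by exact_mod_cast (by omega : 1 < N))
  have hy := yb_mono hc1' hη K hN1
  have hyK : yb N c η K K ≤ N := yb_le_N hc hc1' hη hN1 le_rfl
  have h1r1 : 1 - r ≤ 1 := by linarith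
  have h1r0 : 0 ≤ 1 - r := by linarith
  have hlam : 0 < lm (1 - r) N := lm_pos (by linarith) hN2
  have hlam2 := lm_sq_le h1r0 h1r1 hN1
  have hτ : 0 < (N : ℝ) ^ (-(β / 2)) := by positivity
  have hs1 := hNa N n6
  have hs2 := hNb N n7
  have hs3 := hNc N n8
  have hs4 := hNd N n9
  have hs5 := hNe N n10
  have hs6 := hNf N n11
  have hs5a : C1 + 12 / σ ^ 2 ≤ Real.log N := (le_max_left _ _).trans hs5
  have hs5b : Ce ≤ δ * r / 8 * Real.log N := by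
    have h1 := (le_max_right _ _).trans hs5
    rw [div_le_iff₀ (by positivity)] at h1
    linarith
  have hG2 := hNG N n1
  obtain ⟨y, hydef⟩ : ∃ y : ℕ → ℕ, y = yb N c η K := ⟨_, rfl⟩
  rw [← hydef] at hy hyK hG2
  have hℓ0 : ∀ b, 0 ≤ lm (1 - r) N ^ 2 * vb N y b := fun b => mul_nonneg (by positivity) (vb_nonneg N y b)
  have hℓ1 : ∀ b, lm (1 - r) N ^ 2 * vb N y b ≤ 7 * η * Real.log N + C1 := by
    intro b
    rw [hydef]
    exact hNE N n5 (1 - r) c η K b h1r0 h1r1 hc hc1' hη hKu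
  have hτk : ∀ b < K, k * (N : ℝ) ^ (-(β / 2)) * (lm (1 - r) N ^ 2 * vb N y b + 1) ≤ 1 / 1000 := by
    intro b _
    have h1 : lm (1 - r) N ^ 2 * vb N y b + 1 ≤ (7 * η + C1 + 2) * (1 + Real.log N) := by
      have h2 := hℓ1 b
      have h3 := mul_nonneg hC1.le hL.le
      have h4 := mul_nonneg hη.le hL.le
      linarith
    have h2 : k * (N : ℝ) ^ (-(β / 2)) * (lm (1 - r) N ^ 2 * vb N y b + 1) ≤
        k * (N : ℝ) ^ (-(β / 2)) * ((7 * η + C1 + 2) * (1 + Real.log N)) := mul_le_mul_of_nonneg_left h1 (by positivity)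
    have h3 : k * (N : ℝ) ^ (-(β / 2)) * ((7 * η + C1 + 2) * (1 + Real.log N)) =
        (1000 * k * (7 * η + C1 + 2) * (1 + Real.log N) * (N : ℝ) ^ (-(β / 2))) / 1000 := by ring
    rw [h3] at h2
    linarith
  have hτℓ : ∀ b < K, (N : ℝ) ^ (-(β / 2)) * (lm (1 - r) N ^ 2 * vb N y b + 1) ≤ 1 := by
    intro b hb
    have h1 := hτk b hb
    have h2 : (1 : ℝ) ≤ k := by exact_mod_cast hk
    have h3 : 0 ≤ (N : ℝ) ^ (-(β / 2)) * (lm (1 - r) N ^ 2 * vb N y b + 1) := by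
      have := hℓ0 b
      positivity
    have h4 := le_mul11 h2 h3
    have h5 : k * ((N : ℝ) ^ (-(β / 2)) * (lm (1 - r) N ^ 2 * vb N y b + 1)) =
      k * (N : ℝ) ^ (-(β / 2)) * (lm (1 - r) N ^ 2 * vb N y b + 1) := by ring
    linarith
  have hτ2 : (N : ℝ) ^ (-(β / 2)) ≤ 1 / 2 := by
    have := sm11 (by norm_num) hL.le hτ.le hs1
    linarith
  have hS : ∀ b ≤ K, ∑ b' ∈ range b, lm (1 - r) N ^ 2 * vb N y b' ≤ 2 * r ^ 2 * Real.log N + Ce := by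
    intro b hb
    have h1 := hell (1 - r) c η K N b h1r0 h1r1 hc hc1' hη hN2 hb
    rw [← hydef] at h1
    refine h1.trans ?_
    have h2 : uu c η K b ≤ 1 := by
      have := uu_mono hc1' hη K hb
      rw [uu_K hη] at this
      linarith
    have h3 : 2 * (1 - (1 - r)) ^ 2 * uu c η K b * Real.log N ≤ 2 * r ^ 2 * Real.log N := by
      have h4 : (1 - (1 - r)) ^ 2 = r ^ 2 := by ring
      rw [h4]
      exact mul_le_mul_of_nonneg_right (mul_le11 (by positivity) h2) hL.le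
    linarith
  have hsϑ : ∀ b < K, σ ^ 2 * (lm (1 - r) N ^ 2 * vb N y b) / 2 + 6 ≤ σ * (σ * Real.log N) := by
    intro b _
    have hσ2 : 0 < σ ^ 2 := by positivity
    have h1 := mul_le_mul_of_nonneg_left (hℓ1 b) hσ2.le
    have h2 := mul_le_mul_of_nonneg_left hs5a hσ2.le
    have h3 : σ ^ 2 * (C1 + 12 / σ ^ 2) = σ ^ 2 * C1 + 12 := by field_simp
    rw [h3] at h2
    have h4 : σ ^ 2 * (7 * η * Real.log N + C1) ≤ σ ^ 2 * Real.log N + σ ^ 2 * C1 := by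
      rw [mul_add]
      have h5 : 7 * η * Real.log N ≤ Real.log N := mul_le_of_le_one_left hL.le (by linarith)
      have h6 := mul_le_mul_of_nonneg_left h5 hσ2.le
      linarith
    linarith
  -- windows
  have hwin : ∀ j0 : ℕ, j0 + mw N κ ≤ 4 * N → (N : ℝ) ^ (1 - κ) / 4 ≤ ((Iw N κ κ1 j0).card : ℝ) := by
    intro j0 hj0
    have hr2 : 0 ≤ r ^ 2 := sq_nonneg r
    refine Iw_card hN1 κ κ1 (by linarith) hκ10.le j0 hj0 ?_
    have h1 : 192 * (N : ℝ) ^ (-(10 * g / 11)) ≤ 1 := sm11 (by norm_num) hL.le (by positivity) hs3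
    have h2 : (N : ℝ) ^ (2 * κ1) ≤ (N : ℝ) ^ (1 - κ) * (N : ℝ) ^ (-(10 * g / 11)) := by
      rw [← Real.rpow_add hN0]
      refine Real.rpow_le_rpow_of_exponent_le hN1' ?_
      rw [hκ1]
      linarith
    have h3 : 0 < (N : ℝ) ^ (1 - κ) := by positivity
    have h4 : (N : ℝ) ^ (1 - κ) * (192 * (N : ℝ) ^ (-(10 * g / 11))) ≤ (N : ℝ) ^ (1 - κ) := mul_le11 h3.le h1
    linarith
  -- the events
  obtain ⟨ω2, hω2⟩ : ∃ ω2 : ℂ, ω2 = -Complex.I * ω := ⟨_, rfl⟩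
  obtain ⟨ω3, hω3⟩ : ∃ ω3 : ℂ, ω3 = (1 - Complex.I) / (Real.sqrt 2 : ℝ) * ω := ⟨_, rfl⟩
  have hn2 : ‖ω2‖ = 1 := by rw [hω2, norm_mul, hω]; simp
  have hn3 : ‖ω3‖ = 1 := by rw [hω3, norm_mul, hω, rot_norm]; simp
  obtain ⟨P1, hP1⟩ : ∃ P1 : ℂ → Finset ℕ → Prop, P1 = fun w T => ∃ j ∈ IG N κ1, ∃ b ∈ range K, ptC N y β1 w b j T := ⟨_, rfl⟩
  obtain ⟨Q1, hQ1⟩ : ∃ Q1 : ℕ → ℕ → ℕ → Finset ℕ → Prop, Q1 = fun j i b T => ¬ nr11 N κ1 j i ∧ (N : ℝ) ^ (1 - β2) <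
    ‖∑ p ∈ Pb (y b) (y (b + 1)), XG N (Sy N (y b)) ((j : ℝ) / (4 * N : ℕ)) p T *
      XG N (Sy N (y b)) ((i : ℝ) / (4 * N : ℕ)) p T‖ := ⟨_, rfl⟩
  obtain ⟨Q2, hQ2⟩ : ∃ Q2 : ℕ → ℕ → ℕ → Finset ℕ → Prop, Q2 = fun j i b T => ¬ nr11 N κ1 j i ∧ (N : ℝ) ^ (1 - β2) <
    ‖∑ p ∈ Pb (y b) (y (b + 1)), XG N (Sy N (y b)) ((j : ℝ) / (4 * N : ℕ)) p T *
      XG N (Sy N (y b)) (-((i : ℝ) / (4 * N : ℕ))) p T‖ := ⟨_, rfl⟩
  obtain ⟨R1, hR1'⟩ : ∃ R1 : ℕ → Finset ℕ → Prop, R1 = fun (j : ℕ) T => δ / 4 * tg N <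
    ‖SN N T ((j : ℝ) / (4 * N : ℕ)) - Mn N y K ((j : ℝ) / (4 * N : ℕ)) T‖ := ⟨_, rfl⟩
  obtain ⟨W1, hW1⟩ : ∃ W1 : ℕ → Finset ℕ → Prop, W1 = fun j0 T => (∀ b < K, Gd2 (bl y) (tr (lm (1 - r) N) ω N y)
        (ti (lm (1 - r) N) ω N y) ((N : ℝ) ^ (-(β / 2)))
        (fun b => lm (1 - r) N ^ 2 * vb N y b) (Iw N κ κ1 j0) (nr11 N κ1) b T) ∧
      ∑ j ∈ Iw N κ κ1 j0, wt2 (bl y) (tr (lm (1 - r) N) ω N y) (ti (lm (1 - r) N) ω N y) (σ * Real.log N)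
        (fun b => lm (1 - r) N ^ 2 * vb N y b) j T K < (1 / 4 : ℝ) ^ K * (Iw N κ κ1 j0).card := ⟨_, rfl⟩
  -- the probabilities
  have hfar : ∀ j ∈ IG N κ1, Far N ((j : ℝ) / (4 * N : ℕ)) ((N : ℝ) ^ κ1) := by
    intro j hj
    obtain ⟨f1, f2, f3⟩ := IG_far hN1 hj
    exact Far_mono11 f1 f2
  have hP : ∀ w : ℂ, ‖w‖ = 1 → pr (PP N) (P1 w) ≤ 4 * K * (N : ℝ) ^ (-(3 : ℝ)) := by
    intro w hw
    rw [hP1]
    refine pr_points hN1 y K κ1 β1 w (IG N κ1) (Finset.Subset.refl _) fun j hj b hb => ?_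
    obtain ⟨f1, f2, f3⟩ := IG_far hN1 hj
    rw [hydef]
    exact hNC N n3 _ _ f1 f2 f3 η K hη hKu b hb w hw
  have hQa : pr (PP N) (fun T => ∃ j ∈ IG N κ1, ∃ i ∈ IG N κ1, ∃ b ∈ range K, Q1 j i b T) ≤ 16 * K * (N : ℝ) ^ (-(2 : ℝ)) := by
    refine pr_pairs hN1 K κ1 (IG N κ1) (Finset.Subset.refl _) Q1 fun j hj i hi b hb => ?_
    rw [hQ1]
    by_cases hn : nr11 N κ1 j i
    · rw [pr_false _ (fun T _ hT => hT.1 hn)]
      positivity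
    · have hn' := hn
      unfold nr11 at hn'
      rw [not_not] at hn'
      refine (pr_mono fun T _ hT => hT.2).trans ?_
      rw [hydef]
      exact hNP N n4 _ _ (hfar j hj) (hfar i hi) hn'.1 b hb
  have hQb : pr (PP N) (fun T => ∃ j ∈ IG N κ1, ∃ i ∈ IG N κ1, ∃ b ∈ range K, Q2 j i b T) ≤ 16 * K * (N : ℝ) ^ (-(2 : ℝ)) := by
    refine pr_pairs hN1 K κ1 (IG N κ1) (Finset.Subset.refl _) Q2 fun j hj i hi b hb => ?_
    rw [hQ2]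
    by_cases hn : nr11 N κ1 j i
    · rw [pr_false _ (fun T _ hT => hT.1 hn)]
      positivity
    · have hn' := hn
      unfold nr11 at hn'
      rw [not_not] at hn'
      refine (pr_mono fun T _ hT => hT.2).trans ?_
      rw [hydef]
      exact hNP N n4 _ _ (hfar j hj) (Far_neg11 (hfar i hi)) hn'.2 b hb
  have hRr : pr (PP N) (fun T => ∃ j ∈ IG N κ1, R1 j T) ≤ 3000 * (N : ℝ) ^ (-(κ1 / 8) : ℝ) + 4 * (N : ℝ) ^ (-(1 : ℝ)) := by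
    refine pr_rest hN1 κ1 hκ10.le R1 fun j hj => ?_
    obtain ⟨f1, f2, f3⟩ := IG_far hN1 hj
    rw [hR1', hydef]
    exact hNR N n2 _ _ f1 f2 f3
  have hWw : pr (PP N) (fun T => ∃ j0 ∈ (range (4 * N + 1)).filter (fun j0 => j0 + mw N κ ≤ 4 * N), W1 j0 T) ≤
      25 * K * C' ^ k * (N : ℝ) ^ (-(3 : ℝ)) := by
    refine (pr_exists _ _ _).trans ?_
    have h1 : ∀ j0 ∈ (range (4 * N + 1)).filter (fun j0 => j0 + mw N κ ≤ 4 * N), pr (PP N) (W1 j0) ≤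
        K * (5 * (C' ^ k * (N : ℝ) ^ (-(4 : ℝ)))) := by
      intro j0 hj0
      rw [mem_filter] at hj0
      rw [hW1]
      have h2 := arc_win hiter hnear hN2 k hk κ κ1 r σ Ce C1 η β ρ g hκ10.le hκ11 ω y hy K hyK j0 (hwin j0 hj0.2) hℓ0 hτk hℓ1
        hσ0 hσ1 hsϑ hS hρa hg (by rw [hκ1]; linarith) hKσb hηc hρb
      refine h2.trans ?_
      rw [← hC'def, mul_pow]
      have h3 : ((N : ℝ) ^ (-ρ)) ^ k ≤ (N : ℝ) ^ (-(4 : ℝ)) := by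
        rw [← Real.rpow_natCast, ← Real.rpow_mul hN0.le]
        refine Real.rpow_le_rpow_of_exponent_le hN1' ?_
        linarith
      gcongr
    refine (Finset.sum_le_sum h1).trans ?_
    rw [sum_const, nsmul_eq_mul]
    have h2 : ((((range (4 * N + 1)).filter (fun j0 => j0 + mw N κ ≤ 4 * N)).card : ℕ) : ℝ) ≤ 5 * N := by
      have h3 : ((range (4 * N + 1)).filter (fun j0 => j0 + mw N κ ≤ 4 * N)).card ≤ 4 * N + 1 := by
        refine (card_filter_le _ _).trans (by rw [card_range])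
      have h4 : ((((range (4 * N + 1)).filter (fun j0 => j0 + mw N κ ≤ 4 * N)).card : ℕ) : ℝ) ≤ 4 * N + 1 := by
        exact_mod_cast h3
      linarith
    have h3 : (N : ℝ) * (N : ℝ) ^ (-(4 : ℝ)) = (N : ℝ) ^ (-(3 : ℝ)) := by
      nth_rewrite 1 [← Real.rpow_one (N : ℝ)]
      rw [← Real.rpow_add hN0]; norm_num
    calc ((((range (4 * N + 1)).filter (fun j0 => j0 + mw N κ ≤ 4 * N)).card : ℕ) : ℝ) * (K * (5 * (C' ^ k * (N : ℝ) ^ (-(4 : ℝ)))))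
        ≤ (5 * N) * (K * (5 * (C' ^ k * (N : ℝ) ^ (-(4 : ℝ))))) := mul_le_mul_of_nonneg_right h2 (by positivity)
      _ = 25 * K * C' ^ k * (N * (N : ℝ) ^ (-(4 : ℝ))) := by ring
      _ = _ := by rw [h3]
  -- the inclusion
  have hincl : pr (PP N) (fun T => ∃ j0 : ℕ, j0 + mw N κ ≤ 4 * N ∧
      (cw N (mw N κ) j0 (fun x => ‖SN N T x - z * (tg N : ℂ)‖ ≤ δ * tg N) : ℝ) < (N : ℝ) ^ (1 - κ - r ^ 2 - δ)) ≤
      pr (PP N) (P1 ω) + (pr (PP N) (P1 ω2) + (pr (PP N) (P1 ω3) +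
      (pr (PP N) (fun T => ∃ j ∈ IG N κ1, ∃ i ∈ IG N κ1, ∃ b ∈ range K, Q1 j i b T) +
      (pr (PP N) (fun T => ∃ j ∈ IG N κ1, ∃ i ∈ IG N κ1, ∃ b ∈ range K, Q2 j i b T) +
      (pr (PP N) (fun T => ∃ j ∈ IG N κ1, R1 j T) +
      pr (PP N) (fun T => ∃ j0 ∈ (range (4 * N + 1)).filter (fun j0 => j0 + mw N κ ≤ 4 * N), W1 j0 T)))))) := by
    refine (pr_mono (Q := fun T => P1 ω T ∨ (P1 ω2 T ∨ (P1 ω3 T ∨
      ((∃ j ∈ IG N κ1, ∃ i ∈ IG N κ1, ∃ b ∈ range K, Q1 j i b T) ∨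
      ((∃ j ∈ IG N κ1, ∃ i ∈ IG N κ1, ∃ b ∈ range K, Q2 j i b T) ∨
      ((∃ j ∈ IG N κ1, R1 j T) ∨
      (∃ j0 ∈ (range (4 * N + 1)).filter (fun j0 => j0 + mw N κ ≤ 4 * N), W1 j0 T)))))))
      fun T _ hT => ?_).trans ?_
    · by_contra hcon
      simp only [not_or] at hcon
      obtain ⟨q1, q2, q3, q4, q5, q6, q7⟩ := hcon
      obtain ⟨j0, hj0, hlt⟩ := hT
      rw [hP1] at q1 q2 q3
      rw [hQ1] at q4
      rw [hQ2] at q5
      rw [hR1'] at q6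
      rw [hW1] at q7
      have hG3 : ∀ b < K, Gd2 (bl y) (tr (lm (1 - r) N) ω N y) (ti (lm (1 - r) N) ω N y) ((N : ℝ) ^ (-(β / 2)))
          (fun b => lm (1 - r) N ^ 2 * vb N y b) (Iw N κ κ1 j0) (nr11 N κ1) b T := by
        intro b hb
        refine gd2_all hN2 y b T (lm (1 - r) N) β β1 β2 κ1 ω hω hlam hlam2 hβ hβa hβb hs1 (Iw N κ κ1 j0) ?_ ?_
        · intro j hj
          have hj' := Iw_sub N κ κ1 j0 hj
          refine ⟨fun h => q1 ⟨j, hj', b, mem_range.2 hb, h⟩, fun h => q2 ⟨j, hj', b, mem_range.2 hb, ?_⟩,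
            fun h => q3 ⟨j, hj', b, mem_range.2 hb, ?_⟩⟩
          · rw [hω2]; exact h
          · rw [hω3]; exact h
        · intro j hj i hi hn
          have hj' := Iw_sub N κ κ1 j0 hj
          have hi' := Iw_sub N κ κ1 j0 hi
          refine ⟨?_, ?_⟩
          · by_contra h
            exact q4 ⟨j, hj', i, hi', b, mem_range.2 hb, hn, not_le.1 h⟩
          · by_contra h
            exact q5 ⟨j, hj', i, hi', b, mem_range.2 hb, hn, not_le.1 h⟩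
      have hWk : (1 / 4 : ℝ) ^ K * (Iw N κ κ1 j0).card ≤ ∑ j ∈ Iw N κ κ1 j0, wt2 (bl y) (tr (lm (1 - r) N) ω N y)
          (ti (lm (1 - r) N) ω N y) (σ * Real.log N) (fun b => lm (1 - r) N ^ 2 * vb N y b) j T K := by
        by_contra h
        refine q7 ⟨j0, ?_, hG3, not_le.1 h⟩
        rw [mem_filter, mem_range]
        exact ⟨by omega, hj0⟩
      have hrest' : ∀ j ∈ IG N κ1, ‖SN N T ((j : ℝ) / (4 * N : ℕ)) - Mn N y K ((j : ℝ) / (4 * N : ℕ)) T‖ ≤ δ / 4 * tg N := by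
        intro j hj
        by_contra h
        exact q6 ⟨j, hj, not_le.1 h⟩
      have h1 := arc_det hN2 κ κ1 δ r σ Ce (δ / 32) ((N : ℝ) ^ (-(β / 2))) z ω hω hωz hr0 hr1 hδ y K j0 T hτ hτ2 hτℓ (nr11 N κ1)
        hG3 hrest' hWk hG2 (hS K le_rfl) hKσa (by positivity) le_rfl hs5b (hwin j0 hj0)
      rw [← hccdef] at h1
      have h2 : (N : ℝ) ^ (1 - κ - r ^ 2 - δ) ≤ cc * (N : ℝ) ^ (1 - κ - r ^ 2 - δ / 2) := by
        have h3 : 1 / cc * (N : ℝ) ^ (-(δ / 2)) ≤ 1 := by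
          exact sm11 (by positivity) hL.le (by positivity) hs4
        have h4 : (N : ℝ) ^ (1 - κ - r ^ 2 - δ) = (N : ℝ) ^ (1 - κ - r ^ 2 - δ / 2) * (N : ℝ) ^ (-(δ / 2)) := by
          rw [← Real.rpow_add hN0]; congr 1; ring
        rw [h4]
        have h5 : (N : ℝ) ^ (-(δ / 2)) ≤ cc := by
          rw [div_mul_eq_mul_div, one_mul, div_le_one hcc0] at h3
          exact h3
        have h6 : 0 < (N : ℝ) ^ (1 - κ - r ^ 2 - δ / 2) := by positivity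
        rw [mul_comm cc]
        exact mul_le_mul_of_nonneg_left h5 h6.le
      linarith
    · refine (pr_or _ _ _).trans (add_le_add le_rfl ?_)
      refine (pr_or _ _ _).trans (add_le_add le_rfl ?_)
      refine (pr_or _ _ _).trans (add_le_add le_rfl ?_)
      refine (pr_or _ _ _).trans (add_le_add le_rfl ?_)
      refine (pr_or _ _ _).trans (add_le_add le_rfl ?_)
      exact pr_or _ _ _
  refine hincl.trans ?_
  refine (add_le_add (hP ω hω) (add_le_add (hP ω2 hn2) (add_le_add (hP ω3 hn3) (add_le_add hQa (add_le_add hQb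
    (add_le_add hRr hWw)))))).trans ?_
  -- final numerics
  have hκ8 : κ1 / 8 ≤ 1 := by linarith
  have hmon : ∀ x : ℝ, 1 ≤ x → (N : ℝ) ^ (-x) ≤ (N : ℝ) ^ (-(κ1 / 8)) := fun x hx =>
    Real.rpow_le_rpow_of_exponent_le hN1' (by linarith)
  have g1 := hmon 1 le_rfl
  have g2 := hmon 2 (by norm_num)
  have g3 := hmon 3 (by norm_num)
  have hNa0 : 0 < (N : ℝ) ^ (-(κ1 / 8)) := by positivity
  have hCk : 0 < C' ^ k := by positivity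
  have g4 : 4 * K * (N : ℝ) ^ (-(3 : ℝ)) + (4 * K * (N : ℝ) ^ (-(3 : ℝ)) + (4 * K * (N : ℝ) ^ (-(3 : ℝ)) +
      (16 * K * (N : ℝ) ^ (-(2 : ℝ)) + (16 * K * (N : ℝ) ^ (-(2 : ℝ)) +
      (3000 * (N : ℝ) ^ (-(κ1 / 8) : ℝ) + 4 * (N : ℝ) ^ (-(1 : ℝ)) + 25 * K * C' ^ k * (N : ℝ) ^ (-(3 : ℝ))))))) ≤
      C3 * (N : ℝ) ^ (-(κ1 / 8)) := by
    have k1 := mul_le_mul_of_nonneg_left g3 (show (0 : ℝ) ≤ 4 * K by positivity)
    have k2 := mul_le_mul_of_nonneg_left g2 (show (0 : ℝ) ≤ 16 * K by positivity)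
    have k3 := mul_le_mul_of_nonneg_left g3 (show (0 : ℝ) ≤ 25 * K * C' ^ k by positivity)
    rw [hC3def]
    linarith
  refine g4.trans ?_
  have g8 : (N : ℝ) ^ (-(κ1 / 8)) = (N : ℝ) ^ (-(κ1 / 16)) * (N : ℝ) ^ (-(κ1 / 16)) := by
    rw [← Real.rpow_add hN0]; congr 1; ring
  have g9 : 0 < (N : ℝ) ^ (-(κ1 / 16)) := by positivity
  rw [g8, ← mul_assoc]
  refine mul_le_of_le_one_left g9.le ?_
  exact sm11 hC30.le hL.le g9.le hs6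

/-- V9, from the statements of blocks V4, V6, V8 -/
theorem arc_N_of (hpair : PairStmt) (hnear : NearStmt) (hiter : IterKStmt) (κ δ : ℝ) (z : ℂ) (hκ0 : 0 ≤ κ) (hδ : 0 < δ)
    (hz : ‖z‖ ^ 2 < 1 - κ) : ∃ (c : ℝ) (N0 : ℕ), 0 < c ∧ ∀ N : ℕ, N0 ≤ N →
    pr (PP N) (fun T => ∃ j0 : ℕ, j0 + mw N κ ≤ 4 * N ∧ (cw N (mw N κ) j0 (fun x => ‖SN N T x - z * (tg N : ℂ)‖ ≤ δ * tg N) : ℝ) <
      (N : ℝ) ^ (1 - κ - ‖z‖ ^ 2 - δ)) ≤ (N : ℝ) ^ (-c) := by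
  classical
  by_cases hz0 : z = 0
  · have hκ1 : 0 < 1 - κ := by rw [hz0] at hz; simpa using hz
    obtain ⟨s, hs⟩ : ∃ s : ℝ, s = min (min (δ / 2) ((1 - κ) / 2)) (1 / 2) := ⟨_, rfl⟩
    have hs0 : 0 < s := by rw [hs]; exact lt_min (lt_min (by positivity) (by positivity)) (by norm_num)
    have hsa : s ≤ δ / 2 := by rw [hs]; exact (min_le_left _ _).trans (min_le_left _ _)
    have hsb : s ≤ (1 - κ) / 2 := by rw [hs]; exact (min_le_left _ _).trans (min_le_right _ _)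
    have hsc : s ≤ 1 / 2 := by rw [hs]; exact min_le_right _ _
    have hs2 : s ^ 2 ≤ s := by nlinarith
    have hns : ‖((s : ℝ) : ℂ)‖ = s := by rw [Complex.norm_real, Real.norm_of_nonneg hs0.le]
    obtain ⟨c, N0, hc, h⟩ := arc_N_ne hpair hnear hiter κ (δ / 2) ((s : ℝ) : ℂ) hκ0 (by positivity) (by rw [hns]; linarith)
      (by exact_mod_cast hs0.ne')
    refine ⟨c, max N0 2, hc, fun N hN => (pr_mono fun T _ hT => ?_).trans (h N ((le_max_left _ _).trans hN))⟩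
    have hN2 : 2 ≤ N := (le_max_right _ _).trans hN
    have hN1' : (1 : ℝ) ≤ N := by exact_mod_cast (by omega : 1 ≤ N)
    obtain ⟨j0, hj0, hlt⟩ := hT
    refine ⟨j0, hj0, ?_⟩
    have htg := tg_pos hN2
    have h1 : cw N (mw N κ) j0 (fun x => ‖SN N T x - ((s : ℝ) : ℂ) * (tg N : ℂ)‖ ≤ δ / 2 * tg N) ≤
        cw N (mw N κ) j0 (fun x => ‖SN N T x - z * (tg N : ℂ)‖ ≤ δ * tg N) := by
      unfold cw
      refine card_le_card fun j hj => ?_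
      rw [mem_filter] at hj ⊢
      refine ⟨hj.1, ?_⟩
      show ‖SN N T ((j : ℝ) / (4 * N : ℕ)) - z * (tg N : ℂ)‖ ≤ δ * tg N
      rw [hz0, zero_mul, sub_zero]
      have h2 := norm_le_norm_add_norm_sub' (SN N T ((j : ℝ) / (4 * N : ℕ))) (((s : ℝ) : ℂ) * (tg N : ℂ))
      have h3 : ‖((s : ℝ) : ℂ) * (tg N : ℂ)‖ = s * tg N := by
        rw [norm_mul, hns, Complex.norm_real, Real.norm_of_nonneg htg.le]
      rw [h3] at h2
      have h4 : ‖SN N T ((j : ℝ) / (4 * N : ℕ)) - ((s : ℝ) : ℂ) * (tg N : ℂ)‖ ≤ δ / 2 * tg N := hj.2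
      have h5 : s * tg N ≤ δ / 2 * tg N := mul_le_mul_of_nonneg_right hsa htg.le
      linarith
    have h2 : (cw N (mw N κ) j0 (fun x => ‖SN N T x - ((s : ℝ) : ℂ) * (tg N : ℂ)‖ ≤ δ / 2 * tg N) : ℝ) ≤
        (cw N (mw N κ) j0 (fun x => ‖SN N T x - z * (tg N : ℂ)‖ ≤ δ * tg N) : ℝ) := by exact_mod_cast h1
    refine (h2.trans_lt hlt).trans_le (Real.rpow_le_rpow_of_exponent_le hN1' ?_)
    rw [hns, hz0, norm_zero]
    linarith
  · exact arc_N_ne hpair hnear hiter κ δ z hκ0 hδ hz hz0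

end Pool.Agent.Helper51.EA
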