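import Pool.Agent.Helper51.EA.Defs2
import Pool.Agent.Helper5.RM.Defs

/-!
# Project EA, part 3 (every scale): definitions
-/

set_option autoImplicit false

namespace Pool.Agent.Helper51.EA

open Finset Pool.Agent.Helper5.RM Pool.Agent.Helper5.RS

/-- no short relation between the two points: all `a θ + b θ'`, `a, b ≤ A0`, are far -/
def Far2 (N A0 : ℕ) (θ θ' D : ℝ) : Prop :=
  ∀ a b : ℕ, 1 ≤ a → a ≤ A0 → 1 ≤ b → b ≤ A0 → Far N (a * θ + b * θ') D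

/-- the coefficients of the two point sums -/
noncomputable def c2 (Lam : Finset ℕ) (lo hi : ℕ → ℕ) (α α' : ℝ) (m n : ℕ) : ℂ :=
  ∑ l ∈ Lam.filter (fun l => max (lo m) (lo n) ≤ l ∧ l ≤ min (hi m) (hi n)), e (l * (m * α + n * α'))

open Classical in
/-- the number of the grid points `j / (4 N)`, `j0 ≤ j < j0 + m`, with the property `P` -/
noncomputable def cw (N m j0 : ℕ) (P : ℝ → Prop) : ℕ := ((Ico j0 (j0 + m)).filter (fun j : ℕ => P ((j : ℝ) / (4 * N : ℕ)))).card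

/-- the length of the windows: `N ^ (1 - κ)`, a quarter of an arc of length `N ^ (-κ)` -/
noncomputable def mw (N : ℕ) (κ : ℝ) : ℕ := ⌊(N : ℝ) ^ (1 - κ)⌋₊

/-- the truncated weights, two forms: `t` (tilted) and `t'` (orthogonal); `P b` the blocks -/
noncomputable def wt2 (P : ℕ → Finset ℕ) (t t' : ℕ → ℕ → ℕ → Finset ℕ → ℝ) (s : ℝ) (ℓ : ℕ → ℝ) (j : ℕ)
    (T : Finset ℕ) : ℕ → ℝ
  | 0 => 1
  | b + 1 => if |∑ p ∈ P b, sg T p * t b j p T - ℓ b| ≤ s ∧ |∑ p ∈ P b, sg T p * t' b j p T| ≤ s then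
      wt2 P t t' s ℓ j T b * ∏ p ∈ P b, (1 + sg T p * t b j p T) else 0

/-- the conditions of one step -/
def Gd2 (P : ℕ → Finset ℕ) (t t' : ℕ → ℕ → ℕ → Finset ℕ → ℝ) (τ : ℝ) (ℓ : ℕ → ℝ) (I : Finset ℕ)
    (nr : ℕ → ℕ → Prop) (b : ℕ) (T : Finset ℕ) : Prop :=
  (∀ j ∈ I, (∀ p ∈ P b, |t b j p T| ≤ τ ∧ |t' b j p T| ≤ τ) ∧ |∑ p ∈ P b, t b j p T ^ 2 - ℓ b| ≤ τ ∧
    |∑ p ∈ P b, t' b j p T ^ 2 - ℓ b| ≤ τ ∧ |∑ p ∈ P b, t b j p T * t' b j p T| ≤ τ) ∧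
  ∀ j ∈ I, ∀ i ∈ I, ¬ nr j i → |∑ p ∈ P b, t b j p T * t b i p T| ≤ τ ∧ |∑ p ∈ P b, t b j p T * t' b i p T| ≤ τ ∧
    |∑ p ∈ P b, t' b j p T * t b i p T| ≤ τ ∧ |∑ p ∈ P b, t' b j p T * t' b i p T| ≤ τ

end Pool.Agent.Helper51.EA
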