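import Pool.Agent.Helper11.EA.LdpAS

/-!
# Project EA, part 3, block V14: the smallest maximum over the arcs of length `N^(-κ)`
-/

set_option autoImplicit false

namespace Pool.Agent.Helper11.EA

open MeasureTheory Filter Topology Set Pool.Agent.Helper51.EA

lemma iInf_measure_nonneg (A : ℝ → Set ℝ) : 0 ≤ ⨅ a : ℝ, (volume (A a)).toReal :=
  Real.iInf_nonneg fun _ => ENNReal.toReal_nonneg

/-- V14 -/
theorem maxmin_of (F : ℕ → ℝ → ℂ) (hF : ∀ N, Continuous (F N)) (κ : ℝ) (hκ0 : 0 ≤ κ) (hκ1 : κ < 1)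
    (h : ∀ O : Set ℂ, IsOpen O →
      ((∃ z ∈ O, ‖z‖ < Real.sqrt (1 - κ) * rd) → Tendsto (fun N : ℕ =>
        Real.log (⨅ a : ℝ, (volume {x : ℝ | a ≤ x ∧ x ≤ a + (N : ℝ) ^ (-κ) ∧ nrm F N x ∈ O}).toReal) / Real.log N)
        atTop (𝓝 (-κ - Real.pi ^ 2 / 6 * (Metric.infDist 0 O) ^ 2))) ∧
      (Real.sqrt (1 - κ) * rd < Metric.infDist 0 O → ∀ᶠ N : ℕ in atTop, ∃ a : ℝ, ∀ x : ℝ, a ≤ x → x ≤ a + (N : ℝ) ^ (-κ) →
        nrm F N x ∉ O)) :
    Tendsto (fun N : ℕ => (⨅ a : ℝ, sSup ((fun x => ‖F N x‖) '' Icc a (a + (N : ℝ) ^ (-κ)))) / Real.sqrt (N * Real.log N)) atTop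
      (𝓝 (Real.sqrt (1 - κ) * rd)) := by
  have hR0 : 0 < Real.sqrt (1 - κ) * rd := mul_pos (Real.sqrt_pos.2 (by linarith)) rd_pos
  obtain ⟨R, hR⟩ : ∃ R, R = Real.sqrt (1 - κ) * rd := ⟨_, rfl⟩
  rw [← hR] at h hR0 ⊢
  have hinf : ∀ t : ℝ, 0 ≤ t → t ≤ Metric.infDist (0 : ℂ) {w : ℂ | t < ‖w‖} := by
    intro t ht
    have hne : ({w : ℂ | t < ‖w‖}).Nonempty := by
      refine ⟨((t + 1 : ℝ) : ℂ), ?_⟩
      show t < ‖((t + 1 : ℝ) : ℂ)‖
      rw [Complex.norm_real, Real.norm_of_nonneg (by linarith)]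
      linarith
    rw [Metric.infDist_eq_iInf]
    have : Nonempty {w : ℂ | t < ‖w‖} := hne.to_subtype
    refine le_ciInf fun w => ?_
    have h0 : t < ‖(w : ℂ)‖ := w.2
    rw [dist_zero_left]
    exact h0.le
  have hopen : ∀ t : ℝ, IsOpen {w : ℂ | t < ‖w‖} := fun t => isOpen_lt continuous_const continuous_norm
  have hbdd : ∀ (N : ℕ) (a : ℝ), BddAbove ((fun x => ‖F N x‖) '' Icc a (a + (N : ℝ) ^ (-κ))) := fun N a =>
    (isCompact_Icc.image (hF N).norm).bddAbove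
  have hbelow : ∀ N : ℕ, BddBelow (range fun a : ℝ => sSup ((fun x => ‖F N x‖) '' Icc a (a + (N : ℝ) ^ (-κ)))) := by
    intro N
    refine ⟨0, ?_⟩
    rintro _ ⟨a, rfl⟩
    refine Real.sSup_nonneg ?_
    rintro _ ⟨x, -, rfl⟩
    exact norm_nonneg _
  rw [tendsto_order]
  refine ⟨fun c hc => ?_, fun c hc => ?_⟩
  · -- lower bound
    obtain ⟨t, ht1, ht2⟩ := exists_between (show max c 0 < R from max_lt hc hR0)
    have htc : c < t := (le_max_left _ _).trans_lt ht1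
    have ht0 : 0 < t := (le_max_right _ _).trans_lt ht1
    obtain ⟨t', ht'1, ht'2⟩ := exists_between ht2
    have h1 := (h {w : ℂ | t < ‖w‖} (hopen t)).1 ⟨((t' : ℝ) : ℂ), by
      show t < ‖((t' : ℝ) : ℂ)‖
      rw [Complex.norm_real, Real.norm_of_nonneg (by linarith)]; exact ht'1, by
      rw [Complex.norm_real, Real.norm_of_nonneg (by linarith)]; exact ht'2⟩
    have h2 : -κ - Real.pi ^ 2 / 6 * (Metric.infDist (0 : ℂ) {w : ℂ | t < ‖w‖}) ^ 2 < 0 := by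
      have h3 := hinf t ht0.le
      have h4 : 0 < Metric.infDist (0 : ℂ) {w : ℂ | t < ‖w‖} := lt_of_lt_of_le ht0 h3
      have h5 : 0 < Real.pi ^ 2 / 6 * (Metric.infDist (0 : ℂ) {w : ℂ | t < ‖w‖}) ^ 2 := by
        have := Real.pi_pos
        positivity
      linarith
    filter_upwards [h1.eventually (gt_mem_nhds h2), eventually_ge_atTop 2] with N hN hN2
    have hn := nrm_pos hN2
    have h3 : 0 < ⨅ a : ℝ, (volume {x : ℝ | a ≤ x ∧ x ≤ a + (N : ℝ) ^ (-κ) ∧ nrm F N x ∈ {w : ℂ | t < ‖w‖}}).toReal := by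
      refine lt_of_le_of_ne (iInf_measure_nonneg _) fun h4 => ?_
      have h5 : Real.log (⨅ a : ℝ, (volume {x : ℝ | a ≤ x ∧ x ≤ a + (N : ℝ) ^ (-κ) ∧
        nrm F N x ∈ {w : ℂ | t < ‖w‖}}).toReal) / Real.log N < 0 := hN
      rw [← h4, Real.log_zero, zero_div] at h5
      exact lt_irrefl _ h5
    have h4 : ∀ a : ℝ, t * Real.sqrt (N * Real.log N) ≤ sSup ((fun x => ‖F N x‖) '' Icc a (a + (N : ℝ) ^ (-κ))) := by
      intro a
      have h5 : 0 < (volume {x : ℝ | a ≤ x ∧ x ≤ a + (N : ℝ) ^ (-κ) ∧ nrm F N x ∈ {w : ℂ | t < ‖w‖}}).toReal := by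
        refine lt_of_lt_of_le h3 (ciInf_le ⟨0, ?_⟩ a)
        rintro _ ⟨a', rfl⟩
        exact ENNReal.toReal_nonneg
      have h6 : {x : ℝ | a ≤ x ∧ x ≤ a + (N : ℝ) ^ (-κ) ∧ nrm F N x ∈ {w : ℂ | t < ‖w‖}}.Nonempty := by
        by_contra h7
        rw [not_nonempty_iff_eq_empty] at h7
        rw [h7] at h5
        simp at h5
      obtain ⟨x, hx1, hx2, hx3⟩ := h6
      have h7 : t < ‖nrm F N x‖ := hx3
      rw [norm_nrm, lt_div_iff₀ hn] at h7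
      exact h7.le.trans (le_csSup (hbdd N a) ⟨x, ⟨hx1, hx2⟩, rfl⟩)
    have h5 : t * Real.sqrt (N * Real.log N) ≤ ⨅ a : ℝ, sSup ((fun x => ‖F N x‖) '' Icc a (a + (N : ℝ) ^ (-κ))) := le_ciInf h4
    rw [lt_div_iff₀ hn]
    refine lt_of_lt_of_le ?_ h5
    exact mul_lt_mul_of_pos_right htc hn
  · -- upper bound
    obtain ⟨t, ht1, ht2⟩ := exists_between hc
    have ht0 : 0 < t := hR0.trans ht1
    have h1 := (h {w : ℂ | t < ‖w‖} (hopen t)).2 (ht1.trans_le (hinf t ht0.le))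
    filter_upwards [h1, eventually_ge_atTop 2] with N hN hN2
    have hn := nrm_pos hN2
    obtain ⟨a, ha⟩ := hN
    have h2 : sSup ((fun x => ‖F N x‖) '' Icc a (a + (N : ℝ) ^ (-κ))) ≤ t * Real.sqrt (N * Real.log N) := by
      refine csSup_le ?_ ?_
      · refine (nonempty_Icc.2 ?_).image _
        have : 0 ≤ (N : ℝ) ^ (-κ) := by positivity
        linarith
      · rintro _ ⟨x, hx, rfl⟩
        have h3 : ‖nrm F N x‖ ≤ t := not_lt.1 (ha x hx.1 hx.2)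
        rw [norm_nrm, div_le_iff₀ hn] at h3
        exact h3
    rw [div_lt_iff₀ hn]
    refine lt_of_le_of_lt ((ciInf_le (hbelow N) a).trans h2) ?_
    exact mul_lt_mul_of_pos_right ht2 hn

end Pool.Agent.Helper11.EA
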